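import Mathlib
import Pool.Agent.H.MP_0335f8_cl.ConjAlt
import Pool.Agent.H.MP_0335f8_cl.Design

set_option linter.unusedSectionVars false

/-!
# Designs with three common transpositions and their certificates
-/

namespace H41Cl

open Equiv H47Cl

/-- three conjugate even involutions `α`, `β`, `π` generating the alternating group, such that
`α` and `β` commute, `α * β` is also conjugate, `π * α` has order prime to `p`, and `α` and `π`
have three common transpositions -/
structure Design3 (p : ℕ) (X : Type) [Fintype X] [DecidableEq X] where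
  /-- first involution -/
  α : Perm X
  /-- second involution -/
  β : Perm X
  /-- third involution -/
  π : Perm X
  /-- an exponent for `π * α` -/
  N : ℕ
  α2 : α * α = 1
  β2 : β * β = 1
  π2 : π * π = 1
  comm : α * β = β * α
  hcop : N.Coprime p
  hN : (π * α) ^ N = 1
  gen : Subgroup.closure {α, β, π} = alternatingGroup X
  cβ : ∃ c ∈ alternatingGroup X, c * α * c⁻¹ = β
  cαβ : ∃ c ∈ alternatingGroup X, c * α * c⁻¹ = α * β
  cπ : ∃ c ∈ alternatingGroup X, c * α * c⁻¹ = π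
  /-- three points -/
  i : Fin 3 → X
  /-- their images under `α` and under `π` -/
  i' : Fin 3 → X
  inj : Function.Injective (Sum.elim i i')
  hα : ∀ k, α (i k) = i' k
  hπ : ∀ k, π (i k) = i' k

/-- a design with nine common transpositions gives one with three -/
def ofDesign {p : ℕ} {X : Type} [Fintype X] [DecidableEq X] (D : Design p X) : Design3 p X where
  α := D.α
  β := D.β
  π := D.π
  N := D.N
  α2 := D.α2
  β2 := D.β2
  π2 := D.π2
  comm := D.comm
  hcop := D.hcop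
  hN := D.hN
  gen := D.gen
  cβ := D.cβ
  cαβ := D.cαβ
  cπ := D.cπ
  i k := D.i (Fin.castLE (by omega) k)
  i' k := D.i' (Fin.castLE (by omega) k)
  inj := by
    have h : (Sum.elim (fun k : Fin 3 => D.i (Fin.castLE (by omega) k))
        (fun k : Fin 3 => D.i' (Fin.castLE (by omega) k))) = Sum.elim D.i D.i' ∘
        Sum.map (Fin.castLE (by omega) : Fin 3 → Fin 9) (Fin.castLE (by omega) : Fin 3 → Fin 9) := by
      ext k; rcases k with k | k <;> rfl
    rw [h]
    refine D.inj.comp ?_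
    exact Function.Injective.sumMap (Fin.castLE_injective _) (Fin.castLE_injective _)
  hα k := D.hα _
  hπ k := D.hπ _

section cyc

variable {X : Type*} [DecidableEq X]

/-- the three cycle `a ↦ b ↦ c ↦ a` -/
def cyc (a b c : X) : Perm X := swap a b * swap b c

theorem cyc_conj (h : Perm X) (a b c : X) : h * cyc a b c * h⁻¹ = cyc (h a) (h b) (h c) := by
  unfold cyc
  rw [swap_apply_apply, swap_apply_apply]
  group

theorem cyc_a {a b c : X} (h1 : a ≠ b) (h2 : a ≠ c) : cyc a b c a = b := by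
  rw [cyc, Perm.mul_apply, swap_apply_of_ne_of_ne h1 h2, swap_apply_left]

theorem cyc_b {a b c : X} (h2 : a ≠ c) (h3 : b ≠ c) : cyc a b c b = c := by
  rw [cyc, Perm.mul_apply, swap_apply_left, swap_apply_of_ne_of_ne (Ne.symm h2) (Ne.symm h3)]

theorem cyc_c (a b c : X) : cyc a b c c = a := by
  rw [cyc, Perm.mul_apply, swap_apply_right, swap_apply_right]

theorem cyc_o {a b c x : X} (h1 : x ≠ a) (h2 : x ≠ b) (h3 : x ≠ c) : cyc a b c x = x := by
  rw [cyc, Perm.mul_apply, swap_apply_of_ne_of_ne h2 h3, swap_apply_of_ne_of_ne h1 h2]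

theorem cyc_rot {a b c : X} (h1 : a ≠ b) (h2 : a ≠ c) (h3 : b ≠ c) : cyc a b c = cyc b c a := by
  ext x
  by_cases ha : x = a
  · rw [ha, cyc_a h1 h2, cyc_c]
  by_cases hb : x = b
  · rw [hb, cyc_b h2 h3, cyc_a h3 h1.symm]
  by_cases hc : x = c
  · rw [hc, cyc_c, cyc_b h1.symm h2.symm]
  · rw [cyc_o ha hb hc, cyc_o hb hc ha]

theorem cyc_inv (a b c : X) : (cyc a b c)⁻¹ = cyc c b a := by
  unfold cyc
  rw [mul_inv_rev, swap_inv, swap_inv, swap_comm b c, swap_comm a b]

/-- the basic relation -/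
theorem cyc_mul {o a b c : X} (oa : o ≠ a) (ob : o ≠ b) (oc : o ≠ c) (ab : a ≠ b) (ac : a ≠ c)
    (bc : b ≠ c) : cyc a b c * (cyc o b c)⁻¹ = cyc o a b := by
  rw [cyc_inv]
  ext x
  rw [Perm.mul_apply]
  by_cases h1 : x = o
  · rw [h1, cyc_c, cyc_c, cyc_a oa ob]
  by_cases h2 : x = a
  · rw [h2, cyc_o ac ab oa.symm, cyc_a ab ac, cyc_b ob ab]
  by_cases h3 : x = b
  · rw [h3, cyc_b oc.symm ob.symm, cyc_o oa ob oc, cyc_c]
  by_cases h4 : x = c
  · rw [h4, cyc_a bc.symm oc.symm, cyc_b ac bc, cyc_o oc.symm ac.symm bc.symm]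
  · rw [cyc_o h4 h3 h1, cyc_o h2 h3 h4, cyc_o h1 h2 h3]

/-- all three cycles on a set of points -/
def Good (H : Subgroup (Perm X)) (Y : Set X) : Prop :=
  ∀ a ∈ Y, ∀ b ∈ Y, ∀ c ∈ Y, a ≠ b → a ≠ c → b ≠ c → cyc a b c ∈ H

theorem Good.image {H : Subgroup (Perm X)} {Y : Set X} (hY : Good H Y) {h : Perm X} (hh : h ∈ H) :
    Good H (h '' Y) := by
  rintro _ ⟨a, ha, rfl⟩ _ ⟨b, hb, rfl⟩ _ ⟨c, hc, rfl⟩ h1 h2 h3
  rw [← cyc_conj]
  refine H.mul_mem (H.mul_mem hh (hY a ha b hb c hc ?_ ?_ ?_)) (H.inv_mem hh)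
  · rintro rfl; exact h1 rfl
  · rintro rfl; exact h2 rfl
  · rintro rfl; exact h3 rfl

/-- three cycles through a fixed point suffice -/
theorem good_of_star {H : Subgroup (Perm X)} {Y : Set X} {o : X}
    (h : ∀ a ∈ Y, ∀ b ∈ Y, a ≠ b → a ≠ o → b ≠ o → cyc o a b ∈ H) : Good H Y := by
  have key : ∀ a ∈ Y, ∀ b ∈ Y, ∀ c ∈ Y, a ≠ b → a ≠ c → b ≠ c → a ≠ o → b ≠ o → c ≠ o →
      cyc a b c ∈ H := by
    intro a ha b hb c hc h1 h2 h3 ao bo co
    have e : cyc a b c = cyc o a b * cyc o b c := by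
      rw [← cyc_mul ao.symm bo.symm co.symm h1 h2 h3, inv_mul_cancel_right]
    rw [e]
    exact H.mul_mem (h a ha b hb h1 ao bo) (h b hb c hc h3 bo co)
  intro a ha b hb c hc h1 h2 h3
  by_cases ao : a = o
  · rw [ao] at h1 h2 ⊢
    exact h b hb c hc h3 h1.symm h2.symm
  by_cases bo : b = o
  · rw [cyc_rot h1 h2 h3]
    rw [bo] at h1 h3 ⊢
    exact h c hc a ha h2.symm h3.symm h1
  by_cases co : c = o
  · rw [cyc_rot h1 h2 h3, cyc_rot h3 h1.symm h2.symm]
    rw [co] at h2 h3 ⊢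
    exact h a ha b hb h1 h2 h3
  · exact key a ha b hb c hc h1 h2 h3 ao bo co

theorem Good.union {H : Subgroup (Perm X)} {Y Z : Set X} (hY : Good H Y) (hZ : Good H Z) {o : X}
    (oY : o ∈ Y) (oZ : o ∈ Z) (hY3 : ∃ a ∈ Y, ∃ b ∈ Y, a ≠ b ∧ a ≠ o ∧ b ≠ o)
    (hZ3 : ∃ a ∈ Z, ∃ b ∈ Z, a ≠ b ∧ a ≠ o ∧ b ≠ o) : Good H (Y ∪ Z) := by
  -- the mixed case
  have key : ∀ a ∈ Y, ∀ b ∈ Z, a ≠ b → a ≠ o → b ≠ o → cyc o a b ∈ H := by
    intro a ha b hb hab hao hbo
    by_cases haZ : a ∈ Z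
    · exact hZ o oZ a haZ b hb hao.symm hbo.symm hab
    by_cases hbY : b ∈ Y
    · exact hY o oY a ha b hbY hao.symm hbo.symm hab
    obtain ⟨b', hb'Z, hb'b, hb'o⟩ : ∃ b' ∈ Z, b' ≠ b ∧ b' ≠ o := by
      obtain ⟨x, hx, y, hy, hxy, hxo, hyo⟩ := hZ3
      by_cases hxb : x = b
      · exact ⟨y, hy, by rw [← hxb]; exact hxy.symm, hyo⟩
      · exact ⟨x, hx, hxb, hxo⟩
    obtain ⟨a', ha'Y, ha'a, ha'o⟩ : ∃ a' ∈ Y, a' ≠ a ∧ a' ≠ o := by
      obtain ⟨x, hx, y, hy, hxy, hxo, hyo⟩ := hY3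
      by_cases hxb : x = a
      · exact ⟨y, hy, by rw [← hxb]; exact hxy.symm, hyo⟩
      · exact ⟨x, hx, hxb, hxo⟩
    have hab' : a ≠ b' := fun h => haZ (h ▸ hb'Z)
    have ha'b : a' ≠ b := fun h => hbY (h ▸ ha'Y)
    have m1 : cyc o b b' ∈ H := hZ o oZ b hb b' hb'Z hbo.symm hb'o.symm hb'b.symm
    have m2 : cyc a b b' ∈ H := by
      by_cases hc : a' = b'
      · rw [hc] at ha'Y
        have m3 : cyc o a b' ∈ H := hY o oY a ha b' ha'Y hao.symm hb'o.symm hab'
        -- cyc a b' b = cyc o a b' * cyc o b' b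
        have e : cyc a b' b = cyc o a b' * cyc o b' b := by
          rw [← cyc_mul hao.symm hb'o.symm hbo.symm hab' hab hb'b, inv_mul_cancel_right]
        have m4 : cyc a b' b ∈ H := by
          rw [e]
          exact H.mul_mem m3 (hZ o oZ b' hb'Z b hb hb'o.symm hbo.symm hb'b)
        have m5 := H.inv_mem m4
        rw [cyc_inv, cyc_rot hb'b.symm hab.symm hab'.symm, cyc_rot hab'.symm hb'b hab] at m5
        exact m5
      · have m3 : cyc o a a' ∈ H := hY o oY a ha a' ha'Y hao.symm ha'o.symm ha'a.symm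
        have m4 := H.mul_mem (H.mul_mem m3 m1) (H.inv_mem m3)
        rw [cyc_conj, cyc_a hao.symm ha'o.symm, cyc_o hbo hab.symm ha'b.symm,
          cyc_o hb'o hab'.symm (Ne.symm hc)] at m4
        exact m4
    rw [← cyc_mul hao.symm hbo.symm hb'o.symm hab hab' hb'b.symm]
    exact H.mul_mem m2 (H.inv_mem m1)
  apply good_of_star (o := o)
  rintro a (ha | ha) b (hb | hb) hab hao hbo
  · exact hY o oY a ha b hb hao.symm hbo.symm hab
  · exact key a ha b hb hab hao hbo
  · have m := key b hb a ha hab.symm hbo hao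
    have m2 := H.inv_mem m
    rw [cyc_inv, cyc_rot hab hao hbo, cyc_rot hbo hab.symm hao.symm] at m2
    exact m2
  · exact hZ o oZ a ha b hb hao.symm hbo.symm hab

theorem alt_of_good [Fintype X] {H : Subgroup (Perm X)} (h : Good H Set.univ) :
    alternatingGroup X ≤ H := by
  rw [← Perm.closure_three_cycles_eq_alternating, Subgroup.closure_le]
  intro σ hσ
  have hσ : σ.IsThreeCycle := hσ
  have h1 : σ.support.card = 3 := hσ.card_support
  obtain ⟨a, ha⟩ : ∃ a, a ∈ σ.support := by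
    have : σ.support.Nonempty := by
      rw [← Finset.card_pos, h1]; norm_num
    exact this
  have ha' : σ a ≠ a := Perm.mem_support.1 ha
  have hcube : ∀ x, σ (σ (σ x)) = x := by
    intro x
    have h2 : σ ^ 3 = 1 := by rw [← hσ.orderOf]; exact pow_orderOf_eq_one _
    have h3 := congrArg (fun u : Perm X => u x) h2
    simpa [pow_succ] using h3
  have h12 : σ (σ a) ≠ a := by
    intro h2
    have := hcube a
    rw [h2] at this
    exact ha' this
  have h23 : σ (σ a) ≠ σ a := fun h2 => ha' (σ.injective h2)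
  have hs : σ.support = {a, σ a, σ (σ a)} := by
    symm
    apply Finset.eq_of_subset_of_card_le
    · intro x hx
      simp only [Finset.mem_insert, Finset.mem_singleton] at hx
      rcases hx with rfl | rfl | rfl
      · exact ha
      · exact Perm.apply_mem_support.2 ha
      · exact Perm.apply_mem_support.2 (Perm.apply_mem_support.2 ha)
    · rw [h1, Finset.card_eq_three.2 ⟨a, σ a, σ (σ a), ha'.symm, h12.symm, h23.symm, rfl⟩]
  have e : σ = cyc a (σ a) (σ (σ a)) := by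
    ext x
    by_cases x1 : x = a
    · rw [x1, cyc_a ha'.symm h12.symm]
    by_cases x2 : x = σ a
    · rw [x2, cyc_b h12.symm h23.symm]
    by_cases x3 : x = σ (σ a)
    · rw [x3, cyc_c, hcube]
    · rw [cyc_o x1 x2 x3]
      have : x ∉ σ.support := by
        rw [hs]; simp [x1, x2, x3]
      simpa using this
  rw [e]
  exact h _ (Set.mem_univ _) _ (Set.mem_univ _) _ (Set.mem_univ _) ha'.symm h12.symm h23.symm

end cyc

end H41Cl
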