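import Mathlib
import Pool.Agent.H.MP_0335f8_al.helper41c.Des3

set_option linter.unusedSectionVars false

/-!
# Checking a design by computation
-/

namespace H41Cl

open Equiv H47Cl

/-- the value at `x` of the map with code `c` -/
def pf (c x : ℕ) : ℕ := (c >>> (7 * x)) &&& 127

/-- `c` codes an involution of `{0, ..., m - 1}` -/
def chkP (m c : ℕ) : Bool := (List.range m).all fun x => pf c x < m && pf c (pf c x) == x

theorem chkP_spec {m c : ℕ} (h : chkP m c = true) {x : ℕ} (hx : x < m) :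
    pf c x < m ∧ pf c (pf c x) = x := by
  unfold chkP at h
  have := List.all_eq_true.1 h x (List.mem_range.2 hx)
  simpa using this

/-- the involution with a given code -/
def mkP {m c : ℕ} (h : chkP m c = true) : Perm (Fin m) where
  toFun x := ⟨pf c x.1, (chkP_spec h x.2).1⟩
  invFun x := ⟨pf c x.1, (chkP_spec h x.2).1⟩
  left_inv x := Fin.ext (chkP_spec h x.2).2
  right_inv x := Fin.ext (chkP_spec h x.2).2

theorem mkP_val {m c : ℕ} (h : chkP m c = true) (x : Fin m) : (mkP h x).1 = pf c x.1 := rfl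

theorem mkP_sq {m c : ℕ} (h : chkP m c = true) : mkP h * mkP h = 1 := by
  ext x
  exact (chkP_spec h x.2).2

/-- the letter -/
def lt (a b p k : ℕ) : ℕ := if k = 0 then a else if k = 1 then b else p

/-- the value of a word -/
def ev (a b p : ℕ) (w : List ℕ) (x : ℕ) : ℕ := w.foldr (fun k y => pf (lt a b p k) y) x

/-- iteration -/
def it (f : ℕ → ℕ) : ℕ → ℕ → ℕ
  | 0, x => x
  | n + 1, x => it f n (f x)

/-- one growth step -/
def gstep (a b p : ℕ) (Y : List ℕ) (w : List ℕ) : List ℕ :=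
  let Z := Y.map (ev a b p w)
  if Z.any (fun z => Y.contains z) then Z.filter (fun z => !Y.contains z) ++ Y else Y

/-- growth -/
def grow (a b p : ℕ) (Y : List ℕ) (ws : List (List ℕ)) : List ℕ := ws.foldl (gstep a b p) Y

section sound

variable {m a b p : ℕ} (ha : chkP m a = true) (hb : chkP m b = true) (hp : chkP m p = true)

/-- the group -/
def HH (ha : chkP m a = true) (hb : chkP m b = true) (hp : chkP m p = true) :
    Subgroup (Perm (Fin m)) :=
  Subgroup.closure {mkP ha, mkP hb, mkP hp}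

/-- the permutation of a letter -/
def lp (ha : chkP m a = true) (hb : chkP m b = true) (hp : chkP m p = true) (k : ℕ) :
    Perm (Fin m) :=
  if k = 0 then mkP ha else if k = 1 then mkP hb else mkP hp

theorem lp_mem (k : ℕ) : lp ha hb hp k ∈ HH ha hb hp := by
  unfold lp HH
  split_ifs
  · exact Subgroup.subset_closure (by simp)
  · exact Subgroup.subset_closure (by simp)
  · exact Subgroup.subset_closure (by simp)

theorem lp_val (k : ℕ) (x : Fin m) : (lp ha hb hp k x).1 = pf (lt a b p k) x.1 := by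
  unfold lp lt
  split_ifs <;> rfl

/-- the permutation of a word -/
def wp (ha : chkP m a = true) (hb : chkP m b = true) (hp : chkP m p = true) (w : List ℕ) :
    Perm (Fin m) :=
  w.foldr (fun k y => lp ha hb hp k * y) 1

theorem wp_mem (w : List ℕ) : wp ha hb hp w ∈ HH ha hb hp := by
  induction w with
  | nil => exact Subgroup.one_mem _
  | cons k w ih => exact Subgroup.mul_mem _ (lp_mem ha hb hp k) ih

theorem wp_val (w : List ℕ) (x : Fin m) : (wp ha hb hp w x).1 = ev a b p w x.1 := by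
  induction w with
  | nil => rfl
  | cons k w ih =>
    show (lp ha hb hp k (wp ha hb hp w x)).1 = pf (lt a b p k) (ev a b p w x.1)
    rw [lp_val, ih]

theorem it_val (g : Perm (Fin m)) (f : ℕ → ℕ) (h : ∀ x : Fin m, (g x).1 = f x.1) (n : ℕ)
    (x : Fin m) : ((g ^ n) x).1 = it f n x.1 := by
  induction n generalizing x with
  | zero => rfl
  | succ n ih =>
    rw [pow_succ, Perm.mul_apply, ih, h]
    rfl

/-- the set of points of a list -/
def st (m : ℕ) (Y : List ℕ) : Set (Fin m) := {x | x.1 ∈ Y}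

theorem grow_good {Y : List ℕ} (hY : Good (HH ha hb hp) (st m Y))
    (hm : ∀ y ∈ Y, y < m) (h3 : 3 ≤ Y.length) (hn : Y.Nodup) (w : List ℕ) :
    Good (HH ha hb hp) (st m (gstep a b p Y w)) ∧ (∀ y ∈ gstep a b p Y w, y < m) ∧
      3 ≤ (gstep a b p Y w).length ∧ (gstep a b p Y w).Nodup := by
  unfold gstep
  simp only
  split_ifs with hc
  swap
  · exact ⟨hY, hm, h3, hn⟩
  have hval := wp_val ha hb hp w
  have hev : ∀ y ∈ Y, ev a b p w y < m := by
    intro y hy
    have := hval ⟨y, hm y hy⟩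
    rw [← this]
    exact (wp ha hb hp w ⟨y, hm y hy⟩).2
  have hinj : ∀ y ∈ Y, ∀ z ∈ Y, ev a b p w y = ev a b p w z → y = z := by
    intro y hy z hz h
    have h1 := hval ⟨y, hm y hy⟩
    have h2 := hval ⟨z, hm z hz⟩
    have h4 : wp ha hb hp w ⟨y, hm y hy⟩ = wp ha hb hp w ⟨z, hm z hz⟩ := by
      apply Fin.ext; rw [h1, h2]; exact h
    exact congrArg Fin.val ((wp ha hb hp w).injective h4)
  have hset : st m ((Y.map (ev a b p w)).filter (fun z => !Y.contains z) ++ Y) =
      st m Y ∪ (wp ha hb hp w) '' (st m Y) := by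
    ext x
    simp only [st, Set.mem_setOf_eq, List.mem_append, List.mem_filter, List.mem_map,
      Set.mem_union, Set.mem_image]
    constructor
    · rintro (⟨⟨y, hy, hyx⟩, -⟩ | hx)
      · refine Or.inr ⟨⟨y, hm y hy⟩, hy, Fin.ext ?_⟩
        rw [hval]; exact hyx
      · exact Or.inl hx
    · rintro (hx | ⟨y, hy, rfl⟩)
      · exact Or.inr hx
      · by_cases hx : ((wp ha hb hp w) y).1 ∈ Y
        · exact Or.inr hx
        · refine Or.inl ⟨⟨y.1, hy, (hval y).symm⟩, ?_⟩
          simpa using hx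
  have hthree : ∀ o : Fin m, ∃ x ∈ st m Y, ∃ y ∈ st m Y, x ≠ y ∧ x ≠ o ∧ y ≠ o := by
    intro o
    obtain ⟨y0, y1, y2, T, rfl⟩ : ∃ y0 y1 y2 T, Y = y0 :: y1 :: y2 :: T := by
      match Y, h3 with
      | y0 :: y1 :: y2 :: T, _ => exact ⟨y0, y1, y2, T, rfl⟩
    have n01 : y0 ≠ y1 := by
      rintro rfl; simp at hn
    have n02 : y0 ≠ y2 := by
      rintro rfl; simp at hn
    have n12 : y1 ≠ y2 := by
      rintro rfl; simp at hn
    have l0 := hm y0 (by simp)
    have l1 := hm y1 (by simp)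
    have l2 := hm y2 (by simp)
    by_cases h0 : (⟨y0, l0⟩ : Fin m) = o
    · refine ⟨⟨y1, l1⟩, by simp [st], ⟨y2, l2⟩, by simp [st], ?_, ?_, ?_⟩
      · simpa [Fin.ext_iff] using n12
      · rw [← h0]; simpa [Fin.ext_iff] using n01.symm
      · rw [← h0]; simpa [Fin.ext_iff] using n02.symm
    · by_cases h1 : (⟨y1, l1⟩ : Fin m) = o
      · refine ⟨⟨y0, l0⟩, by simp [st], ⟨y2, l2⟩, by simp [st], ?_, h0, ?_⟩
        · simpa [Fin.ext_iff] using n02
        · rw [← h1]; simpa [Fin.ext_iff] using n12.symm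
      · refine ⟨⟨y0, l0⟩, by simp [st], ⟨y1, l1⟩, by simp [st], ?_, h0, h1⟩
        simpa [Fin.ext_iff] using n01
  refine ⟨?_, ?_, ?_, ?_⟩
  · rw [hset]
    rw [List.any_eq_true] at hc
    obtain ⟨z, hz, hz2⟩ := hc
    obtain ⟨y, hy, rfl⟩ := List.mem_map.1 hz
    have hz3 : ev a b p w y ∈ Y := by simpa using hz2
    set o : Fin m := wp ha hb hp w ⟨y, hm y hy⟩ with ho
    have ho1 : o.1 = ev a b p w y := hval _
    apply Good.union hY (hY.image (wp_mem ha hb hp w)) (o := o)
    · show o.1 ∈ Y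
      rw [ho1]; exact hz3
    · exact ⟨⟨y, hm y hy⟩, hy, rfl⟩
    · exact hthree o
    · obtain ⟨x, hx, z, hz, h4, h5, h6⟩ := hthree ⟨y, hm y hy⟩
      refine ⟨_, ⟨x, hx, rfl⟩, _, ⟨z, hz, rfl⟩, ?_, ?_, ?_⟩
      · exact fun h => h4 ((wp ha hb hp w).injective h)
      · exact fun h => h5 ((wp ha hb hp w).injective h)
      · exact fun h => h6 ((wp ha hb hp w).injective h)
  · intro y hy
    rcases List.mem_append.1 hy with h | h
    · obtain ⟨z, hz, rfl⟩ := List.mem_map.1 (List.mem_filter.1 h).1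
      exact hev z hz
    · exact hm y h
  · rw [List.length_append]; omega
  · rw [List.nodup_append]
    refine ⟨?_, hn, ?_⟩
    · apply List.Nodup.filter
      exact (List.nodup_map_iff_inj_on hn).2 hinj
    · intro y hy z hz hyz
      have := (List.mem_filter.1 hy).2
      rw [hyz] at this
      simp [hz] at this

theorem grow_good_all {Y : List ℕ} (hY : Good (HH ha hb hp) (st m Y))
    (hm : ∀ y ∈ Y, y < m) (h3 : 3 ≤ Y.length) (hn : Y.Nodup) (ws : List (List ℕ)) :
    Good (HH ha hb hp) (st m (grow a b p Y ws)) := by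
  induction ws generalizing Y with
  | nil => exact hY
  | cons w ws ih =>
    obtain ⟨h1, h2, h3', h4⟩ := grow_good ha hb hp hY hm h3 hn w
    exact ih h1 h2 h3' h4

end sound

/-- the number of fixed points -/
def cfix (f : ℕ → ℕ) : ℕ → ℕ
  | 0 => 0
  | n + 1 => (if f n = n then 1 else 0) + cfix f n

theorem cfix_eq {m : ℕ} (g : Perm (Fin m)) (f : ℕ → ℕ) (h : ∀ x : Fin m, (g x).1 = f x.1) :
    (Finset.univ.filter (fun x => g x = x)).card = cfix f m := by
  have h1 : ∀ n, cfix f n = ((Finset.range n).filter (fun x => f x = x)).card := by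
    intro n
    induction n with
    | zero => rfl
    | succ n ih =>
      rw [cfix, ih, Finset.range_add_one, Finset.filter_insert]
      split_ifs with hf
      · rw [Finset.card_insert_of_notMem (by simp)]; omega
      · omega
  rw [h1, ← Finset.card_map Fin.valEmbedding]
  congr 1
  ext x
  simp only [Finset.mem_map, Finset.mem_filter, Finset.mem_univ, true_and, Fin.valEmbedding_apply,
    Finset.mem_range]
  constructor
  · rintro ⟨y, hy, rfl⟩
    exact ⟨y.2, by rw [← h, hy]⟩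
  · rintro ⟨hx, hfx⟩
    exact ⟨⟨x, hx⟩, Fin.ext (by rw [h]; exact hfx), rfl⟩

/-- the main check -/
def chk (m a b p k n : ℕ) (w : List ℕ) (e x0 x1 x2 : ℕ) (gr : List (List ℕ)) (l : List ℕ) :
    Bool :=
  (List.range m).all (fun x => pf a (pf b x) == pf b (pf a x)) &&
  (List.range m).all (fun x => it (fun y => pf p (pf a y)) n x == x) &&
  (cfix (pf a) m + 4 * (k + 1) == m) && (cfix (pf b) m + 4 * (k + 1) == m) &&
  (cfix (fun x => pf a (pf b x)) m + 4 * (k + 1) == m) && (cfix (pf p) m + 4 * (k + 1) == m) &&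
  (decide (x0 < m)) && (decide (x1 < m)) && (decide (x2 < m)) &&
  !(x0 == x1) && !(x0 == x2) && !(x1 == x2) &&
  (List.range m).all (fun x => it (ev a b p w) e x ==
    (if x = x0 then x1 else if x = x1 then x2 else if x = x2 then x0 else x)) &&
  (List.range m).all (fun x => (grow a b p [x0, x1, x2] gr).contains x) &&
  (l.length == 3) && (l.all (fun x => x < m)) &&
  (l.all (fun x => pf p x == pf a x)) && decide ((l ++ l.map (pf a)).Nodup)

theorem inj3' {X : Type*} {a b c : X} (h1 : a ≠ b) (h2 : a ≠ c) (h3 : b ≠ c) :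
    Function.Injective (![a, b, c] : Fin 3 → X) := by
  intro i j hij
  fin_cases i <;> fin_cases j <;> simp_all [eq_comm]

theorem design_of {m a b p k n : ℕ} {w : List ℕ} {e x0 x1 x2 : ℕ} {gr : List (List ℕ)}
    {l : List ℕ} (ha : chkP m a = true) (hb : chkP m b = true) (hp : chkP m p = true)
    (hc : chk m a b p k n w e x0 x1 x2 gr l = true) (q : ℕ) (hq : n.Coprime q) :
    Nonempty (Design3 q (Fin m)) := by
  unfold chk at hc
  simp only [Bool.and_eq_true, decide_eq_true_eq, Bool.not_eq_true', List.all_eq_true,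
    List.mem_range, beq_iff_eq, beq_eq_false_iff_ne] at hc
  obtain ⟨⟨⟨⟨⟨⟨⟨⟨⟨⟨⟨⟨⟨⟨⟨⟨⟨c1, c2⟩, c3⟩, c4⟩, c5⟩, c6⟩, c7⟩, c8⟩, c9⟩, c10⟩, c11⟩, c12⟩, c13⟩, c14⟩,
    c15⟩, c16⟩, c17⟩, c18⟩ := hc
  set α := mkP ha with hα
  set β := mkP hb with hβ
  set π := mkP hp with hπ
  have hα2 : α * α = 1 := mkP_sq ha
  have hβ2 : β * β = 1 := mkP_sq hb
  have hπ2 : π * π = 1 := mkP_sq hp
  have hcomm : α * β = β * α := by
    ext x
    exact c1 x.1 x.2
  have hαβ2 : (α * β) * (α * β) = 1 := by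
    calc (α * β) * (α * β) = α * (β * α) * β := by group
      _ = α * (α * β) * β := by rw [hcomm]
      _ = (α * α) * (β * β) := by group
      _ = 1 := by rw [hα2, hβ2, one_mul]
  have f1 : (Finset.univ.filter (fun x => α x = x)).card = cfix (pf a) m :=
    cfix_eq α _ (fun x => mkP_val ha x)
  have f2 : (Finset.univ.filter (fun x => β x = x)).card = cfix (pf b) m :=
    cfix_eq β _ (fun x => mkP_val hb x)
  have f3 : (Finset.univ.filter (fun x => (α * β) x = x)).card =
      cfix (fun x => pf a (pf b x)) m :=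
    cfix_eq (α * β) _ (fun x => rfl)
  have f4 : (Finset.univ.filter (fun x => π x = x)).card = cfix (pf p) m :=
    cfix_eq π _ (fun x => mkP_val hp x)
  have hcardm : Fintype.card (Fin m) = m := Fintype.card_fin m
  have hne : α ≠ 1 := by
    intro h
    have : (Finset.univ.filter (fun x => α x = x)).card = m := by
      rw [h]; simp
    omega
  have mα : α ∈ alternatingGroup (Fin m) := mem_alt α hα2 (k + 1) (by rw [hcardm, f1]; omega)
  have mβ : β ∈ alternatingGroup (Fin m) := mem_alt β hβ2 (k + 1) (by rw [hcardm, f2]; omega)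
  have mπ : π ∈ alternatingGroup (Fin m) := mem_alt π hπ2 (k + 1) (by rw [hcardm, f4]; omega)
  have n01 : (⟨x0, c7⟩ : Fin m) ≠ ⟨x1, c8⟩ := fun h => c10 (congrArg Fin.val h)
  have n02 : (⟨x0, c7⟩ : Fin m) ≠ ⟨x2, c9⟩ := fun h => c11 (congrArg Fin.val h)
  have n12 : (⟨x1, c8⟩ : Fin m) ≠ ⟨x2, c9⟩ := fun h => c12 (congrArg Fin.val h)
  have hthree : cyc (⟨x0, c7⟩ : Fin m) ⟨x1, c8⟩ ⟨x2, c9⟩ ∈ HH ha hb hp := by
    have : cyc (⟨x0, c7⟩ : Fin m) ⟨x1, c8⟩ ⟨x2, c9⟩ = (wp ha hb hp w) ^ e := by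
      ext x
      rw [it_val (wp ha hb hp w) (ev a b p w) (wp_val ha hb hp w), c13 x.1 x.2]
      by_cases h0 : x = ⟨x0, c7⟩
      · rw [h0, cyc_a n01 n02]; simp
      · have h0' : x.1 ≠ x0 := fun h => h0 (Fin.ext h)
        by_cases h1 : x = ⟨x1, c8⟩
        · rw [h1, cyc_b n02 n12]; simp [Ne.symm c10]
        · have h1' : x.1 ≠ x1 := fun h => h1 (Fin.ext h)
          by_cases h2 : x = ⟨x2, c9⟩
          · rw [h2, cyc_c]; simp [Ne.symm c11, Ne.symm c12]
          · have h2' : x.1 ≠ x2 := fun h => h2 (Fin.ext h)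
            rw [cyc_o h0 h1 h2, if_neg h0', if_neg h1', if_neg h2']
    rw [this]
    exact Subgroup.pow_mem _ (wp_mem ha hb hp w) _
  have hgood0 : Good (HH ha hb hp) (st m [x0, x1, x2]) := by
    apply good_of_star (o := (⟨x0, c7⟩ : Fin m))
    intro y hy z hz hyz hy0 hz0
    have hh : ∀ y ∈ st m [x0, x1, x2], y ≠ ⟨x0, c7⟩ → y = ⟨x1, c8⟩ ∨ y = ⟨x2, c9⟩ := by
      intro y hy h0
      have : y.1 ∈ [x0, x1, x2] := hy
      simp only [List.mem_cons, List.not_mem_nil, or_false] at this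
      rcases this with h | h | h
      · exact absurd (Fin.ext h) h0
      · exact Or.inl (Fin.ext h)
      · exact Or.inr (Fin.ext h)
    rcases hh y hy hy0 with h1 | h1 <;> rcases hh z hz hz0 with h2 | h2
    · exact absurd (h1.trans h2.symm) hyz
    · rw [h1, h2]; exact hthree
    · rw [h1, h2]
      have := (HH ha hb hp).inv_mem hthree
      rw [cyc_inv, cyc_rot n12.symm n02.symm n01.symm, cyc_rot n01.symm n12 n02] at this
      exact this
    · exact absurd (h1.trans h2.symm) hyz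
  have hgood := grow_good_all ha hb hp hgood0 (by
    intro y hy
    simp only [List.mem_cons, List.not_mem_nil, or_false] at hy
    rcases hy with h | h | h <;> rw [h] <;> assumption) (by simp)
    (by simp [c10, c11, c12]) gr
  have halt : alternatingGroup (Fin m) ≤ HH ha hb hp := by
    apply alt_of_good
    have : st m (grow a b p [x0, x1, x2] gr) = Set.univ := by
      ext x
      simp only [st, Set.mem_setOf_eq, Set.mem_univ, iff_true]
      have := c14 x.1 x.2
      simpa using this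
    rw [this] at hgood
    exact hgood
  obtain ⟨l0, l1, l2, rfl⟩ : ∃ l0 l1 l2, l = [l0, l1, l2] := by
    match l, c15 with
    | [l0, l1, l2], _ => exact ⟨l0, l1, l2, rfl⟩
  have u0 := c16 l0 (by simp)
  have u1 := c16 l1 (by simp)
  have u2 := c16 l2 (by simp)
  have v0 := c17 l0 (by simp)
  have v1 := c17 l1 (by simp)
  have v2 := c17 l2 (by simp)
  exact ⟨{
    α := α
    β := β
    π := π
    N := n
    α2 := hα2
    β2 := hβ2
    π2 := hπ2
    comm := hcomm
    hcop := hq
    hN := by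
      ext x
      rw [it_val (π * α) (fun y => pf p (pf a y)) (fun x => rfl), c2 x.1 x.2]
      rfl
    gen := by
      apply le_antisymm
      · rw [Subgroup.closure_le]
        rintro x (rfl | rfl | rfl)
        · exact mα
        · exact mβ
        · exact mπ
      · exact halt
    cβ := conj_alt α β hα2 hβ2 hne (by rw [f1, f2]; omega)
    cαβ := conj_alt α (α * β) hα2 hαβ2 hne (by rw [f1, f3]; omega)
    cπ := conj_alt α π hα2 hπ2 hne (by rw [f1, f4]; omega)
    i := ![⟨l0, u0⟩, ⟨l1, u1⟩, ⟨l2, u2⟩]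
    i' := ![α ⟨l0, u0⟩, α ⟨l1, u1⟩, α ⟨l2, u2⟩]
    inj := by
      have hnd : (l0 :: l1 :: l2 :: [pf a l0, pf a l1, pf a l2]).Nodup := c18
      simp only [List.nodup_cons, List.mem_cons, List.not_mem_nil, or_false, not_or,
        not_false_eq_true, List.nodup_nil, and_true] at hnd
      obtain ⟨⟨d1, d2, d3, d4, d5⟩, ⟨d6, d7, d8, d9⟩, ⟨d10, d11, d12⟩, ⟨d13, d14⟩, d15⟩ := hnd
      have e : ∀ (x y : ℕ) (hx : x < m) (hy : y < m), ¬ x = y → (⟨x, hx⟩ : Fin m) ≠ ⟨y, hy⟩ :=
        fun x y _ _ h h' => h (congrArg Fin.val h')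
      have e' : ∀ (x : ℕ) (hx : x < m) (y : Fin m), ¬ x = pf a y.1 → (⟨x, hx⟩ : Fin m) ≠ α y :=
        fun x _ y h h' => h (congrArg Fin.val h')
      have e'' : ∀ (x y : Fin m), ¬ pf a x.1 = pf a y.1 → α x ≠ α y :=
        fun x y h h' => h (congrArg Fin.val h')
      refine Function.Injective.sumElim ?_ ?_ ?_
      · exact inj3' (e _ _ _ _ d1) (e _ _ _ _ d2) (e _ _ _ _ d6)
      · exact inj3' (e'' ⟨l0, u0⟩ ⟨l1, u1⟩ d13) (e'' ⟨l0, u0⟩ ⟨l2, u2⟩ d14)
          (e'' ⟨l1, u1⟩ ⟨l2, u2⟩ d15)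
      · intro i j hij
        fin_cases i <;> fin_cases j
        · exact e' l0 u0 ⟨l0, u0⟩ d3 hij
        · exact e' l0 u0 ⟨l1, u1⟩ d4 hij
        · exact e' l0 u0 ⟨l2, u2⟩ d5 hij
        · exact e' l1 u1 ⟨l0, u0⟩ d7 hij
        · exact e' l1 u1 ⟨l1, u1⟩ d8 hij
        · exact e' l1 u1 ⟨l2, u2⟩ d9 hij
        · exact e' l2 u2 ⟨l0, u0⟩ d10 hij
        · exact e' l2 u2 ⟨l1, u1⟩ d11 hij
        · exact e' l2 u2 ⟨l2, u2⟩ d12 hij
    hα := by
      intro j
      fin_cases j <;> rfl
    hπ := by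
      intro j
      fin_cases j
      · exact Fin.ext v0
      · exact Fin.ext v1
      · exact Fin.ext v2 }⟩

/-- one of two coprime numbers is coprime to a given prime -/
theorem pick {n1 n2 : ℕ} (h : Nat.Coprime n1 n2) {q : ℕ} (hq : q.Prime) :
    n1.Coprime q ∨ n2.Coprime q := by
  by_cases h1 : q ∣ n1
  · right
    rw [Nat.coprime_comm, hq.coprime_iff_not_dvd]
    intro h2
    have h3 := Nat.dvd_gcd h1 h2
    rw [h] at h3
    exact hq.one_lt.ne' (Nat.dvd_one.1 h3)
  · left
    rw [Nat.coprime_comm, hq.coprime_iff_not_dvd]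
    exact h1

end H41Cl
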