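import Pool.Agent.H.MP_0335f8_al.helper41c.Cert3

/-!
# Explicit designs
-/

namespace H41Cl

theorem d21 (q : ℕ) (hq : q.Prime) : Nonempty (Design3 q (Fin 21)) := by
  rcases pick (n1 := 9) (n2 := 14) (by decide +kernel) hq with h | h
  · exact design_of (m := 21) (a := 26701373879733848375884598908519293843980289) (b := 14058173195560365013867535550076026538164610) (p := 26701373879732892609409878692645348378182278) (k := 4) (n := 9) (w := [1, 2, 1, 2, 1, 2, 0]) (e := 4) (x0 := 7) (x1 := 12) (x2 := 14) (gr := [[0], [2, 0, 2], [2], [1]]) (l := [15, 17, 19])
      (by decide +kernel) (by decide +kernel) (by decide +kernel) (by decide +kernel) q h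
  · exact design_of (m := 21) (a := 26701373879733848375884598908519293843980289) (b := 14057830254737440068143494168010359946037521) (p := 26701373879730359803279962188803006661788165) (k := 4) (n := 14) (w := [2, 0, 2, 0, 1, 2, 0, 2, 1]) (e := 2) (x0 := 8) (x1 := 16) (x2 := 14) (gr := [[0], [2], [1], [2], [0], [1]]) (l := [15, 17, 19])
      (by decide +kernel) (by decide +kernel) (by decide +kernel) (by decide +kernel) q h

theorem d22 (q : ℕ) (hq : q.Prime) : Nonempty (Design3 q (Fin 22)) := by
  rcases pick (n1 := 15) (n2 := 8) (by decide +kernel) hq with h | h
  · exact design_of (m := 22) (a := 3597586589545266432434808042041172300583190529) (b := 1080302175032162659327061299729884199998603392) (p := 3597586589545262616870573535271761666252178954) (k := 4) (n := 15) (w := [2, 0, 2, 0, 1]) (e := 19) (x0 := 2) (x1 := 13) (x2 := 8) (gr := [[0, 2, 0], [1], [2], [1]]) (l := [16, 18, 20])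
      (by decide +kernel) (by decide +kernel) (by decide +kernel) (by decide +kernel) q h
  · exact design_of (m := 22) (a := 3597586589545266432434808042041172300583190529) (b := 1976502233149624083048214808496245865581707392) (p := 3597586589544737802248744526337617701898536323) (k := 4) (n := 8) (w := [0, 2, 0, 1]) (e := 19) (x0 := 1) (x1 := 2) (x2 := 4) (gr := [[2, 0, 2], [0], [2], [1]]) (l := [16, 18, 20])
      (by decide +kernel) (by decide +kernel) (by decide +kernel) (by decide +kernel) q h

theorem d23 (q : ℕ) (hq : q.Prime) : Nonempty (Design3 q (Fin 23)) := by
  rcases pick (n1 := 21) (n2 := 8) (by decide +kernel) hq with h | h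
  · exact design_of (m := 23) (a := 483506857278028795288909584274212679345326047233) (b := 68866095827737793137507303863261560090443205139) (p := 483506857278007738976197084362020527354807485317) (k := 4) (n := 21) (w := [0, 1, 2, 1]) (e := 7) (x0 := 12) (x1 := 14) (x2 := 13) (gr := [[2, 0, 2], [0], [2], [1]]) (l := [17, 19, 21])
      (by decide +kernel) (by decide +kernel) (by decide +kernel) (by decide +kernel) q h
  · exact design_of (m := 23) (a := 483506857278028795288909584274212679345326047233) (b := 138271633456537279441142784065861626829008307467) (p := 483506857277955900286472760754129378182911230086) (k := 4) (n := 8) (w := [0, 2, 1]) (e := 16) (x0 := 0) (x1 := 13) (x2 := 10) (gr := [[2, 0, 2], [0], [2], [1], [0]]) (l := [17, 19, 21])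
      (by decide +kernel) (by decide +kernel) (by decide +kernel) (by decide +kernel) q h

theorem d24 (q : ℕ) (hq : q.Prime) : Nonempty (Design3 q (Fin 24)) := by
  rcases pick (n1 := 9) (n2 := 8) (by decide +kernel) hq with h | h
  · exact design_of (m := 24) (a := 64834896780065066863376110127069624749830139068417) (b := 32382652955313973764307740796652781054718556471940) (p := 64834896780063649001871764767380219440924243133200) (k := 5) (n := 9) (w := [0, 2, 1, 2, 0, 1, 2]) (e := 14) (x0 := 5) (x1 := 16) (x2 := 18) (gr := [[2, 0], [2, 1], [0], [1]]) (l := [18, 20, 22])
      (by decide +kernel) (by decide +kernel) (by decide +kernel) (by decide +kernel) q h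
  · exact design_of (m := 24) (a := 64834896780065066863376110127069624749830139068417) (b := 38275769763020165855723984410127032137649720951301) (p := 64834896780065066293230212754996060409740860179983) (k := 5) (n := 8) (w := [0, 2, 0, 2, 1, 0, 2, 1, 2, 1, 2]) (e := 10) (x0 := 5) (x1 := 15) (x2 := 16) (gr := [[2, 0], [2, 1], [0], [1]]) (l := [16, 18, 20])
      (by decide +kernel) (by decide +kernel) (by decide +kernel) (by decide +kernel) q h

theorem d25 (q : ℕ) (hq : q.Prime) : Nonempty (Design3 q (Fin 25)) := by
  rcases pick (n1 := 19) (n2 := 12) (by decide +kernel) hq with h | h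
  · exact design_of (m := 25) (a := 8675957226053601497768145478265704502234734565310465) (b := 757150084031975844465863770390859704120026396494228) (p := 8675957226053083747927771077638049050135533870826506) (k := 5) (n := 19) (w := [1, 0, 2]) (e := 11) (x0 := 12) (x1 := 15) (x2 := 18) (gr := [[0], [2], [0], [1], [2], [1]]) (l := [19, 21, 23])
      (by decide +kernel) (by decide +kernel) (by decide +kernel) (by decide +kernel) q h
  · exact design_of (m := 25) (a := 8675957226053601497768145478265704502234734565310465) (b := 4899022361474896958512984414995507685980193992034063) (p := 8675957226052918196488472599097476680037334560016003) (k := 5) (n := 12) (w := [0, 2, 0, 2]) (e := 2) (x0 := 10) (x1 := 18) (x2 := 11) (gr := [[1], [2], [0], [1], [2], [1]]) (l := [19, 21, 23])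
      (by decide +kernel) (by decide +kernel) (by decide +kernel) (by decide +kernel) q h

theorem d26 (q : ℕ) (hq : q.Prime) : Nonempty (Design3 q (Fin 26)) := by
  rcases pick (n1 := 15) (n2 := 8) (by decide +kernel) hq with h | h
  · exact design_of (m := 26) (a := 1158790101025114488171548930436166277487975173862768641) (b := 289964848387829971960329691766463273873329731328609174) (p := 1158790101025114484838135206781596567751372453244339083) (k := 5) (n := 15) (w := [2, 1, 0, 1]) (e := 5) (x0 := 14) (x1 := 16) (x2 := 15) (gr := [[1], [2], [0], [1], [2], [0], [1]]) (l := [18, 20, 22])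
      (by decide +kernel) (by decide +kernel) (by decide +kernel) (by decide +kernel) q h
  · exact design_of (m := 26) (a := 1158790101025125291477276969198458130808388098692530177) (b := 723624790932830421931816394861541309695683795724944004) (p := 1158790101024971649310024347259749297949503217255745152) (k := 5) (n := 8) (w := [0, 2, 1, 2, 0, 2, 0, 1]) (e := 10) (x0 := 0) (x1 := 12) (x2 := 9) (gr := [[2], [0], [1, 2, 1], [1]]) (l := [20, 22, 24])
      (by decide +kernel) (by decide +kernel) (by decide +kernel) (by decide +kernel) q h

theorem d27 (q : ℕ) (hq : q.Prime) : Nonempty (Design3 q (Fin 27)) := by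
  rcases pick (n1 := 7) (n2 := 6) (by decide +kernel) hq with h | h
  · exact design_of (m := 27) (a := 154503382670769857042287794513984325432470975195711062017) (b := 86542252484178098410694546439750682103786556833965212681) (p := 154503382670747424775918739953521595953100391422930158981) (k := 5) (n := 7) (w := [0, 2, 1, 2]) (e := 10) (x0 := 8) (x1 := 9) (x2 := 19) (gr := [[1], [2, 0, 2], [2], [1], [0]]) (l := [21, 23, 25])
      (by decide +kernel) (by decide +kernel) (by decide +kernel) (by decide +kernel) q h
  · exact design_of (m := 27) (a := 154503382670769857042287794513984325432470975195711062017) (b := 61826619992075444792134683703786341183824847150711557016) (p := 154503382670750267403069794536571943205185361118589125770) (k := 5) (n := 6) (w := [1, 2, 1, 2]) (e := 10) (x0 := 2) (x1 := 18) (x2 := 15) (gr := [[0], [2], [0], [1], [2], [0], [1]]) (l := [21, 23, 25])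
      (by decide +kernel) (by decide +kernel) (by decide +kernel) (by decide +kernel) q h

theorem d28 (q : ℕ) (hq : q.Prime) : Nonempty (Design3 q (Fin 28)) := by
  rcases pick (n1 := 11) (n2 := 12) (by decide +kernel) hq with h | h
  · exact design_of (m := 28) (a := 20567248948521253593656529231586551487332143621843993018369) (b := 7110827261947298424860512391910315333324470189656935533720) (p := 20567248948520162152170676765536898496581977846439976633348) (k := 6) (n := 11) (w := [0, 2, 0, 1, 2, 1, 2]) (e := 10) (x0 := 13) (x1 := 26) (x2 := 17) (gr := [[1], [2, 0], [1], [2], [0], [1]]) (l := [22, 24, 26])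
      (by decide +kernel) (by decide +kernel) (by decide +kernel) (by decide +kernel) q h
  · exact design_of (m := 28) (a := 20567248948521253593656529231586551487332143621843993018369) (b := 10274140070814208456940967918124459679573748113699565243286) (p := 20567248948521253538781262070123697982408105994781148219399) (k := 6) (n := 12) (w := [0, 1, 2, 1, 2, 0, 2]) (e := 10) (x0 := 6) (x1 := 19) (x2 := 17) (gr := [[2, 0, 2], [1, 2, 0], [2], [1], [0]]) (l := [20, 22, 24])
      (by decide +kernel) (by decide +kernel) (by decide +kernel) (by decide +kernel) q h

theorem d29 (q : ℕ) (hq : q.Prime) : Nonempty (Design3 q (Fin 29)) := by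
  rcases pick (n1 := 15) (n2 := 23) (by decide +kernel) hq with h | h
  · exact design_of (m := 29) (a := 2733832309143592723041681310228003526673047344842244723097601) (b := 1719944364243380235997867634915494277631061415997564158101132) (p := 2733832309143316354064598725281790144828551227090030299480836) (k := 6) (n := 15) (w := [2, 1, 0, 1]) (e := 5) (x0 := 10) (x1 := 22) (x2 := 11) (gr := [[1], [2], [0], [1], [2], [1], [0]]) (l := [23, 25, 27])
      (by decide +kernel) (by decide +kernel) (by decide +kernel) (by decide +kernel) q h
  · exact design_of (m := 29) (a := 2733832309143592723041681310228003526673047344842244723097601) (b := 2124817426175822940442166046069608617743538552120702870635787) (p := 2733832309143452309197587645596378774958984662428526582024842) (k := 6) (n := 23) (w := [1, 2, 0]) (e := 8) (x0 := 17) (x1 := 18) (x2 := 22) (gr := [[0], [2], [0], [1], [2], [0], [1]]) (l := [23, 25, 27])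
      (by decide +kernel) (by decide +kernel) (by decide +kernel) (by decide +kernel) q h

theorem d30 (q : ℕ) (hq : q.Prime) : Nonempty (Design3 q (Fin 30)) := by
  rcases pick (n1 := 15) (n2 := 16) (by decide +kernel) hq with h | h
  · exact design_of (m := 30) (a := 362887264368184663016724550016498677170622217051315880855650305) (b := 116507759958201402101618212201170689377574136063779059758499341) (p := 362887264368152508889217625382880595212765302354978766938326279) (k := 6) (n := 15) (w := [1, 2, 0, 1]) (e := 5) (x0 := 0) (x1 := 1) (x2 := 22) (gr := [[2], [0], [2], [0], [1, 2, 1], [1], [0]]) (l := [24, 26, 28])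
      (by decide +kernel) (by decide +kernel) (by decide +kernel) (by decide +kernel) q h
  · exact design_of (m := 30) (a := 362887264368184663016724550016498677170622217051315880855650305) (b := 246068721264464325254696795389475750691563526586126345684681606) (p := 362887264368143532945259655205420974208893305411577353997418638) (k := 6) (n := 16) (w := [0, 2, 1, 0]) (e := 13) (x0 := 0) (x1 := 2) (x2 := 6) (gr := [[2], [1], [2], [0], [2], [1], [0]]) (l := [24, 26, 28])
      (by decide +kernel) (by decide +kernel) (by decide +kernel) (by decide +kernel) q h

theorem d31 (q : ℕ) (hq : q.Prime) : Nonempty (Design3 q (Fin 31)) := by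
  rcases pick (n1 := 15) (n2 := 11) (by decide +kernel) hq with h | h
  · exact design_of (m := 31) (a := 48108031125246276481524231042648608493817281633015674931758809089) (b := 6646903851420680987458183113310484453405906940781540244289899801) (p := 48108031125246276412099267106932117521721029814525939988027474065) (k := 6) (n := 15) (w := [1, 0, 1, 2]) (e := 5) (x0 := 18) (x1 := 22) (x2 := 19) (gr := [[1], [2], [0], [1], [2], [0], [1]]) (l := [23, 25, 27])
      (by decide +kernel) (by decide +kernel) (by decide +kernel) (by decide +kernel) q h
  · exact design_of (m := 31) (a := 48108031125246276481524231042648608493817281633015674931758809089) (b := 28180783058232955451399726901450769426312731634593743244779225089) (p := 48108031125246276480248763993429622012345468298402046506187377170) (k := 6) (n := 11) (w := [0, 2, 1, 2, 1]) (e := 34) (x0 := 7) (x1 := 20) (x2 := 19) (gr := [[0], [2, 0, 2], [0], [2], [1]]) (l := [23, 25, 27])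
      (by decide +kernel) (by decide +kernel) (by decide +kernel) (by decide +kernel) q h

theorem d32 (q : ℕ) (hq : q.Prime) : Nonempty (Design3 q (Fin 32)) := by
  rcases pick (n1 := 13) (n2 := 12) (by decide +kernel) hq with h | h
  · exact design_of (m := 32) (a := 6370111028654756770944735118651009825154904068163264849773580042241) (b := 426237618772372128256946957204675792990414425536860783555209841431) (p := 6370111028654085561516504667707395779221436964113396039280385605909) (k := 7) (n := 13) (w := [2, 1, 2, 0, 1, 2, 0]) (e := 16) (x0 := 5) (x1 := 6) (x2 := 14) (gr := [[2], [1, 2, 0], [2], [0], [1]]) (l := [26, 28, 30])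
      (by decide +kernel) (by decide +kernel) (by decide +kernel) (by decide +kernel) q h
  · exact design_of (m := 32) (a := 6370111028654756770944735118651009825154904068163264849773580042241) (b := 635294426050404474880048096791009004726685115409052831342156810773) (p := 6370111028654756735477618608102580745011651835219381296756936672787) (k := 7) (n := 12) (w := [2, 0, 1, 2, 1, 2, 0]) (e := 10) (x0 := 12) (x1 := 18) (x2 := 25) (gr := [[2, 0], [2, 1], [0], [1], [2], [1]]) (l := [24, 26, 28])
      (by decide +kernel) (by decide +kernel) (by decide +kernel) (by decide +kernel) q h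

theorem d33 (q : ℕ) (hq : q.Prime) : Nonempty (Design3 q (Fin 33)) := by
  rcases pick (n1 := 15) (n2 := 23) (by decide +kernel) hq with h | h
  · exact design_of (m := 33) (a := 842546441379582739859825568688241093822833394546262116563050125377537) (b := 380628486642307611416835187149577425084317615547959242021086154850821) (p := 842546441379582739859685501768919862913566769966363961346621207299850) (k := 7) (n := 15) (w := [0, 2, 0, 2]) (e := 5) (x0 := 16) (x1 := 22) (x2 := 17) (gr := [[1], [2], [0], [1], [2], [1], [0]]) (l := [23, 25, 27])
      (by decide +kernel) (by decide +kernel) (by decide +kernel) (by decide +kernel) q h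
  · exact design_of (m := 33) (a := 842546441379582739859825568688241093822833394546262116563050125377537) (b := 163239015121586327223175480638695832902667554806841745670373676369806) (p := 842546441379582739859803075576221942039083742173858087569908557955973) (k := 7) (n := 23) (w := [0, 1, 2]) (e := 10) (x0 := 4) (x1 := 21) (x2 := 22) (gr := [[0], [2], [0], [1], [2], [1], [0]]) (l := [23, 25, 27])
      (by decide +kernel) (by decide +kernel) (by decide +kernel) (by decide +kernel) q h

end H41Cl
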