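import Mathlib
import Pool.Agent.H.MP_0335f8_cl.Isolate

set_option linter.unusedSectionVars false
set_option linter.unusedSimpArgs false

/-!
# A seed element with three indices and its isolation
-/

namespace H41Cl

open H47Cl H47Cl.Frm

variable {K V : Type*} [Field K] [AddCommGroup V] [Module K V] {F : Frm K V}
  {X : Type*} [Fintype X] [DecidableEq X] {B : Frame F X}

/-- the quotient of two Siegel transformations with the same first vector -/
theorem El_ratio {u w w' : V} {s : K} (h : F.Adm u w s) (h' : F.Adm u w' s)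
    (hh : F.h w' w = F.h w w) : F.El u w s * (F.El u w' s)⁻¹ = F.El u (w - w') 0 := by
  rw [El_inv h', El_mul h (Adm_inv h'), F.h_neg, hh, sub_eq_add_neg w w']
  congr 1
  have := F.ε2
  linear_combination F.ε * h.2.2.2.1 - s * this

/-- the commutator of a group element with a Siegel transformation -/
theorem comm1 (g : F.G) {u w : V} (h : F.Adm u w 0) (hu : g.1 u = u) :
    g * F.El u w 0 * g⁻¹ * (F.El u w 0)⁻¹ = F.El u (g.1 w - w) (F.ε * F.h w (g.1 w)) := by
  have h1 : F.Adm u (g.1 w) 0 := by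
    have := (Adm_conj g (u := u) (w := w) (s := 0)).2 h
    rwa [hu] at this
  rw [El_conj, hu, El_inv h, El_mul h1 (Adm_inv h), F.h_neg, map_zero, mul_zero,
    sub_eq_add_neg (g.1 w) w]
  congr 1
  ring

theorem comm_in {G : Type*} [Group G] {H : Subgroup G} {a b : G} (ha : a ∈ H) (hb : b ∈ H) :
    a * b * a⁻¹ * b⁻¹ ∈ H :=
  H.mul_mem (H.mul_mem (H.mul_mem ha hb) (H.inv_mem ha)) (H.inv_mem hb)

/-- the parameters of the seed element -/
structure Seed3 {K V : Type*} [Field K] [AddCommGroup V] [Module K V] {F : Frm K V}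
    {X : Type*} [Fintype X] [DecidableEq X] (B : Frame F X) where
  /-- a generator of the multiplicative group -/
  l : K
  hl : l ≠ 0
  gen : ∀ a : K, a ≠ 0 → ∃ n : ℕ, a = l ^ n
  /-- parameter for the first anisotropic vector -/
  s1 : K
  /-- parameter for the second anisotropic vector -/
  s2 : K
  t1 : F.ε * s1 + F.σ s1 + F.h (B.v 0) (B.v 0) = 0
  t1' : F.κ * (s1 + F.q (B.v 0)) = 0
  t2 : F.ε * s2 + F.σ s2 + F.h (B.v 1) (B.v 1) = 0
  t2' : F.κ * (s2 + F.q (B.v 1)) = 0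
  pure : ∀ s, F.ε * s + F.σ s = 0 → F.κ * s = 0 →
    (∃ c, s = F.σ c - F.ε * c) ∨ (B.v 0 = 0 ∧ ∃ ν, s = ν * F.σ ν * s1)

namespace Seed3

variable (D : Seed3 B)

/-- the first factor -/
noncomputable def E (a b : X) : F.G := F.El (B.e a) (D.l • B.e b + B.v 0) D.s1

/-- the second factor -/
noncomputable def L (c a : X) : F.G := F.El (B.f c) (B.f a + B.v 1) D.s2

/-- the product -/
noncomputable def g (i : Fin 3 → X) : F.G := D.E (i 0) (i 1) * D.L (i 2) (i 0)

/-- the seed element -/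
noncomputable def C (i i' : Fin 3 → X) : F.G := D.g i * (D.g i')⁻¹

theorem admE (a b : X) : F.Adm (B.e a) (D.l • B.e b + B.v 0) D.s1 := by
  refine ⟨B.hee _ _, B.qe _, ?_, ?_, ?_⟩
  · rw [F.h_add_right, F.h_smul_right, B.hee, B.hev]; ring
  · have : F.h (D.l • B.e b + B.v 0) (D.l • B.e b + B.v 0) = F.h (B.v 0) (B.v 0) := by
      simp only [F.h_add, F.h_add_right, F.h_smul, F.h_smul_right, B.hee, B.hev, B.hve]; ring
    rw [this]; exact D.t1
  · have : F.q (D.l • B.e b + B.v 0) = F.q (B.v 0) := by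
      rw [F.q_add, F.q_smul, B.qe, F.h_smul, B.hev]; ring
    rw [this]; exact D.t1'

theorem admL (c a : X) : F.Adm (B.f c) (B.f a + B.v 1) D.s2 := by
  refine ⟨B.hff _ _, B.qf _, ?_, ?_, ?_⟩
  · rw [F.h_add_right, B.hff, B.hfv]; ring
  · have : F.h (B.f a + B.v 1) (B.f a + B.v 1) = F.h (B.v 1) (B.v 1) := by
      simp only [F.h_add, F.h_add_right, B.hff, B.hfv, B.hvf]; ring
    rw [this]; exact D.t2
  · have : F.q (B.f a + B.v 1) = F.q (B.v 1) := by
      rw [F.q_add, B.qf, B.hfv]; ring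
    rw [this]; exact D.t2'

theorem E_e (a b x : X) : (D.E a b).1 (B.e x) = B.e x := by
  apply El_fix
  · exact B.hee _ _
  · rw [F.h_add_right, F.h_smul_right, B.hee, B.hev]; ring

theorem E_f {a b x : X} (h1 : x ≠ a) (h2 : x ≠ b) : (D.E a b).1 (B.f x) = B.f x := by
  apply El_fix
  · rw [B.hfe, if_neg h1]
  · rw [F.h_add_right, F.h_smul_right, B.hfe, if_neg h2, B.hfv]; ring

theorem E_fa {a b : X} (h : a ≠ b) : (D.E a b).1 (B.f a) =
    B.f a + F.ε • (D.l • B.e b + B.v 0) + (F.ε * D.s1) • B.e a := by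
  rw [E, El_ap (D.admE a b), B.hfe, if_pos rfl, F.h_add_right, F.h_smul_right, B.hfe, if_neg h,
    B.hfv]
  module

theorem E_v (a b : X) (i : Fin 2) : (D.E a b).1 (B.v i) =
    B.v i - (F.ε * F.h (B.v i) (B.v 0)) • B.e a := by
  rw [E, El_ap (D.admE a b), B.hve, F.h_add_right, F.h_smul_right, B.hve]
  module

theorem L_f (c a x : X) : (D.L c a).1 (B.f x) = B.f x := by
  apply El_fix
  · exact B.hff _ _
  · rw [F.h_add_right, B.hff, B.hfv]; ring

theorem L_e {c a x : X} (h1 : x ≠ c) (h2 : x ≠ a) : (D.L c a).1 (B.e x) = B.e x := by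
  apply El_fix
  · rw [B.hef, if_neg h1]
  · rw [F.h_add_right, B.hef, if_neg h2, B.hev]; ring

theorem L_ec {c a : X} (h : a ≠ c) : (D.L c a).1 (B.e c) =
    B.e c + (B.f a + B.v 1) + D.s2 • B.f c := by
  rw [L, El_ap (D.admL c a), B.hef, if_pos rfl, F.h_add_right, B.hef, if_neg (Ne.symm h), B.hev]
  module

end Seed3

section iso

variable {D : Seed3 B} {H : Subgroup F.G}

/-- the hypothesis on the quotients -/
def Rat (D : Seed3 B) (H : Subgroup F.G) : Prop :=
  ∀ a b c a' b' c' : X, a ≠ b → a ≠ c → b ≠ c → a' ≠ b' → a' ≠ c' → b' ≠ c' →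
    (D.E a b * D.L c a) * (D.E a' b' * D.L c' a')⁻¹ ∈ H

theorem inj3 {a b c : X} (h1 : a ≠ b) (h2 : a ≠ c) (h3 : b ≠ c) :
    Function.Injective (![a, b, c] : Fin 3 → X) := by
  intro i j hij
  fin_cases i <;> fin_cases j <;> simp_all [eq_comm]

theorem rat_of (hX : 9 ≤ Fintype.card X)
    (hC : ∀ i i' : Fin 3 → X, Function.Injective (Sum.elim i i') → D.C i i' ∈ H) : Rat D H := by
  have hg : ∀ i j : Fin 3 → X, Function.Injective i → Function.Injective j →
      D.g i * (D.g j)⁻¹ ∈ H := by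
    intro i j hi hj
    obtain ⟨x, hx, hxS⟩ := exists_fresh (X := X) 3 (Finset.univ.image i ∪ Finset.univ.image j) (by
      have h1 : (Finset.univ.image i ∪ Finset.univ.image j).card ≤ 3 + 3 := by
        refine (Finset.card_union_le _ _).trans (Nat.add_le_add ?_ ?_)
        · exact Finset.card_image_le.trans (by simp)
        · exact Finset.card_image_le.trans (by simp)
      omega)
    have h1 : Function.Injective (Sum.elim i x) := by
      refine hi.sumElim hx ?_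
      intro a b hab
      exact hxS b (Finset.mem_union_left _ (by rw [← hab]; simp))
    have h2 : Function.Injective (Sum.elim j x) := by
      refine hj.sumElim hx ?_
      intro a b hab
      exact hxS b (Finset.mem_union_right _ (by rw [← hab]; simp))
    have h3 := H.mul_mem (hC i x h1) (H.inv_mem (hC j x h2))
    have : D.C i x * (D.C j x)⁻¹ = D.g i * (D.g j)⁻¹ := by
      unfold Seed3.C; group
    rwa [this] at h3
  intro a b c a' b' c' h1 h2 h3 h4 h5 h6
  exact hg ![a, b, c] ![a', b', c'] (inj3 h1 h2 h3) (inj3 h4 h5 h6)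

/-- new points -/
theorem fr (hX : 9 ≤ Fintype.card X) (S : Finset X) (hS : S.card ≤ 7) :
    ∃ x y : X, x ∉ S ∧ y ∉ S ∧ x ≠ y := by
  obtain ⟨x, hx, hxS⟩ := exists_fresh (X := X) 2 S (by omega)
  exact ⟨x 0, x 1, hxS 0, hxS 1, hx.ne (by decide)⟩

theorem adm_diff_e (i a b : X) (μ : K) : F.Adm (B.e i) (μ • (B.e a - B.e b)) 0 := by
  refine ⟨B.hee _ _, B.qe _, ?_, ?_, ?_⟩
  · rw [F.h_smul_right, F.h_sub_right, B.hee, B.hee]; ring
  · simp only [F.h_smul, F.h_smul_right, F.h_sub, F.h_sub_right, B.hee, map_zero]; ring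
  · rw [F.q_smul, sub_eq_add_neg, F.q_add, F.q_neg, B.qe, B.qe, F.h_neg_right, B.hee]; ring

theorem adm_diff_f {i a b : X} (h1 : i ≠ a) (h2 : i ≠ b) (μ : K) :
    F.Adm (B.e i) (μ • (B.f a - B.f b)) 0 := by
  refine ⟨B.hee _ _, B.qe _, ?_, ?_, ?_⟩
  · rw [F.h_smul_right, F.h_sub_right, B.hef, B.hef, if_neg h1, if_neg h2]; ring
  · simp only [F.h_smul, F.h_smul_right, F.h_sub, F.h_sub_right, B.hff, map_zero]; ring
  · rw [F.q_smul, sub_eq_add_neg, F.q_add, F.q_neg, B.qf, B.qf, F.h_neg_right, B.hff]; ring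

/-- step 1 -/
theorem stepU (hX : 9 ≤ Fintype.card X) (hr : Rat D H) {a b b' : X} (h1 : a ≠ b) (h2 : a ≠ b')
    (h3 : b ≠ b') : F.El (B.e a) (D.l • (B.e b - B.e b')) 0 ∈ H := by
  obtain ⟨c, -, hc, -, -⟩ := fr hX {a, b, b'} (by
    have := Finset.card_le_three (a := a) (b := b) (c := b'); omega)
  simp only [Finset.mem_insert, Finset.mem_singleton, not_or] at hc
  have m := hr a b c a b' c h1 (Ne.symm hc.1) (Ne.symm hc.2.1) h2 (Ne.symm hc.1) (Ne.symm hc.2.2)
  have e1 : (D.E a b * D.L c a) * (D.E a b' * D.L c a)⁻¹ = D.E a b * (D.E a b')⁻¹ := by group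
  rw [e1] at m
  have e2 : D.E a b * (D.E a b')⁻¹ = F.El (B.e a) (D.l • (B.e b - B.e b')) 0 := by
    unfold Seed3.E
    rw [El_ratio (D.admE a b) (D.admE a b')]
    · congr 1; module
    · simp only [F.h_add, F.h_add_right, F.h_smul, F.h_smul_right, B.hee, B.hev, B.hve]
  rwa [e2] at m

/-- the element `V` -/
noncomputable def VV (D : Seed3 B) (a b c c' : X) : F.G :=
  (D.E a b * D.L c a) * (D.E a b * D.L c' a)⁻¹

/-- the vector `ω` -/
noncomputable def om (D : Seed3 B) (a b : X) : V := (D.E a b).1 (B.f a + B.v 1)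

theorem VV_e {a b c c' x : X} (h1 : x ≠ c) (h2 : x ≠ a) (h3 : x ≠ c') :
    (VV D a b c c').1 (B.e x) = B.e x := by
  have e1 : ((D.E a b)⁻¹).1 (B.e x) = B.e x := inv_fix (D.E_e a b x)
  have e2 : ((D.L c' a)⁻¹).1 (B.e x) = B.e x := inv_fix (D.L_e h3 h2)
  rw [VV, mul_inv_rev, mul_ap, mul_ap, mul_ap, e1, e2, D.L_e h1 h2, D.E_e]

theorem VV_ec {a b c c' : X} (hac : a ≠ c) (hbc : b ≠ c) (hcc : c ≠ c') :
    (VV D a b c c').1 (B.e c) = B.e c + om D a b + D.s2 • B.f c := by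
  have e1 : ((D.E a b)⁻¹).1 (B.e c) = B.e c := inv_fix (D.E_e a b c)
  have e2 : ((D.L c' a)⁻¹).1 (B.e c) = B.e c := inv_fix (D.L_e hcc (Ne.symm hac))
  rw [VV, mul_inv_rev, mul_ap, mul_ap, mul_ap, e1, e2, D.L_ec hac, map_add, map_add, map_smul,
    D.E_e, D.E_f (Ne.symm hac) (Ne.symm hbc), om]

theorem om_e (D : Seed3 B) (a b x : X) :
    F.h (om D a b) (B.e x) = if a = x then F.ε else 0 := by
  have h := G_h (D.E a b) (B.f a + B.v 1) (B.e x)
  rw [D.E_e] at h
  rw [om, h, F.h_add, B.hfe, B.hve, add_zero]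

theorem e_om (D : Seed3 B) (a b x : X) :
    F.h (B.e x) (om D a b) = if a = x then 1 else 0 := by
  rw [F.h_swap (om D a b) (B.e x), om_e]
  split_ifs
  · rw [F.σε, F.ε2]
  · rw [map_zero, mul_zero]

theorem om_eq (D : Seed3 B) {a b : X} (h : a ≠ b) : om D a b = B.f a + B.v 1 + F.ε • B.v 0 +
    ((F.ε * D.l) • B.e b + (F.ε * D.s1 - F.ε * F.h (B.v 1) (B.v 0)) • B.e a) := by
  rw [om, map_add, D.E_fa h, D.E_v]
  module

/-- step 3: the parameter of the first long element -/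
theorem stepM (D : Seed3 B) {i a b c c' : X} (hV : VV D a b c c' ∈ H) (t : K)
    (hic : i ≠ c) (hia : i ≠ a) (hic' : i ≠ c') (hac : a ≠ c) (hbc : b ≠ c) (hcc : c ≠ c')
    (hx : F.El (B.e i) (t • B.e c) 0 ∈ H) :
    F.El (B.e i) (t • (om D a b + D.s2 • B.f c)) (F.ε * (t * F.σ t * F.σ D.s2)) ∈ H := by
  have m := comm_in hV hx
  rw [comm1 _ (adm_ee i c t) (VV_e hic hia hic')] at m
  have e1 : (VV D a b c c').1 (t • B.e c) - t • B.e c = t • (om D a b + D.s2 • B.f c) := by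
    rw [map_smul, VV_ec hac hbc hcc]; module
  have e2 : F.h (t • B.e c) ((VV D a b c c').1 (t • B.e c)) = t * F.σ t * F.σ D.s2 := by
    rw [map_smul, VV_ec hac hbc hcc]
    simp only [F.h_smul, F.h_smul_right, F.h_add_right, B.hee, e_om, if_neg hac, B.hef, if_true]
    ring
  rw [e1, e2] at m
  exact m

/-- step 4: single root elements -/
theorem stepX (hX : 9 ≤ Fintype.card X) (hr : Rat D H) :
    ∀ p q : X, p ≠ q → F.El (B.e p) ((-F.ε * (D.l * F.σ D.l)) • B.e q) 0 ∈ H := by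
  intro j i hji
  obtain ⟨a, b, ha, hb, hab⟩ := fr hX {i, j} (by
    have := Finset.card_le_two (a := i) (b := j); omega)
  obtain ⟨c, c', hc, hc', hcc⟩ := fr hX {i, j, a, b} (by
    have := Finset.card_le_four (a := i) (b := j) (c := a) (d := b); omega)
  obtain ⟨k, -, hk, -, -⟩ := fr hX ({i, j, a, b, c, c'} : Finset X) (by
    have := Finset.card_le_six (a := i) (b := j) (c := a) (d := b) (e := c) (f := c'); omega)
  simp only [Finset.mem_insert, Finset.mem_singleton, not_or] at ha hb hc hc' hk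
  obtain ⟨ai, aj⟩ := ha
  obtain ⟨bi, bj⟩ := hb
  obtain ⟨ci, cj, ca, cb⟩ := hc
  obtain ⟨c'i, c'j, c'a, c'b⟩ := hc'
  obtain ⟨ki, kj, ka, kb, kc, kc'⟩ := hk
  have hV : VV D a b c c' ∈ H := hr a b c a b c' hab (Ne.symm ca) (Ne.symm cb) hab
    (Ne.symm c'a) (Ne.symm c'b)
  have hU : F.El (B.e i) (D.l • (B.e c - B.e k)) 0 ∈ H :=
    stepU hX hr (Ne.symm ci) (Ne.symm ki) (Ne.symm kc)
  have m := comm_in hV hU
  rw [comm1 _ (adm_diff_e i c k D.l) (VV_e (Ne.symm ci) (Ne.symm ai) (Ne.symm c'i))] at m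
  have e1 : (VV D a b c c').1 (D.l • (B.e c - B.e k)) - D.l • (B.e c - B.e k) =
      D.l • (om D a b + D.s2 • B.f c) := by
    rw [map_smul, map_sub, VV_ec (Ne.symm ca) (Ne.symm cb) hcc, VV_e kc ka kc']; module
  rw [e1] at m
  set s := F.ε * F.h (D.l • (B.e c - B.e k)) ((VV D a b c c').1 (D.l • (B.e c - B.e k))) with hs
  set M := F.El (B.e i) (D.l • (om D a b + D.s2 • B.f c)) s with hM
  -- the action of `M`
  have hadm : F.Adm (B.e i) (D.l • (om D a b + D.s2 • B.f c)) s := by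
    have a1 := adm_diff_e (B := B) i c k D.l
    have a2 := (Adm_conj (VV D a b c c') (u := B.e i) (w := D.l • (B.e c - B.e k)) (s := 0)).2 a1
    rw [VV_e (Ne.symm ci) (Ne.symm ai) (Ne.symm c'i)] at a2
    have a3 := Adm_mul a2 (Adm_inv a1)
    rw [← sub_eq_add_neg, e1, F.h_neg] at a3
    convert a3 using 1
    rw [hs, map_zero]; ring
  have hU2 : F.El (B.e j) (D.l • (B.e a - B.e k)) 0 ∈ H :=
    stepU hX hr (Ne.symm aj) (Ne.symm kj) (Ne.symm ka)
  have Mx : ∀ x, x ≠ a → x ≠ c → M.1 (B.e x) = B.e x := by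
    intro x hxa hxc
    apply El_fix
    · exact B.hee _ _
    · rw [F.h_smul_right, F.h_add_right, e_om, if_neg (Ne.symm hxa), F.h_smul_right, B.hef,
        if_neg hxc]; ring
  have Ma : M.1 (B.e a) = B.e a - (F.ε * F.σ D.l) • B.e i := by
    rw [hM, El_ap hadm, B.hee, F.h_smul_right, F.h_add_right, e_om, if_pos rfl, F.h_smul_right,
      B.hef, if_neg (Ne.symm ca)]
    module
  have m2 := comm_in m hU2
  rw [comm1 _ (adm_diff_e j a k D.l) (Mx j (Ne.symm aj) (Ne.symm cj))] at m2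
  have e3 : M.1 (D.l • (B.e a - B.e k)) - D.l • (B.e a - B.e k) =
      (-F.ε * (D.l * F.σ D.l)) • B.e i := by
    rw [map_smul, map_sub, Ma, Mx k ka kc]; module
  have e4 : F.h (D.l • (B.e a - B.e k)) (M.1 (D.l • (B.e a - B.e k))) = 0 := by
    rw [map_smul, map_sub, Ma, Mx k ka kc]
    simp only [F.h_smul, F.h_smul_right, F.h_sub, F.h_sub_right, B.hee]; ring
  rw [e3, e4, mul_zero] at m2
  exact m2

end iso


section iso2

variable {D : Seed3 B} {H : Subgroup F.G}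

/-- step 5: all single root elements -/
theorem stepEE (hX : 9 ≤ Fintype.card X) (hr : Rat D H) :
    ∀ p q : X, p ≠ q → ∀ μ : K, F.El (B.e p) (μ • B.e q) 0 ∈ H := by
  have e2 := F.ε2
  have hneg : ∀ c : K, (∀ p q, p ≠ q → F.El (B.e p) (c • B.e q) 0 ∈ H) →
      ∀ p q, p ≠ q → F.El (B.e p) ((-c) • B.e q) 0 ∈ H := by
    intro c hc p q hpq
    have := H.inv_mem (hc p q hpq)
    rw [El_inv (adm_ee p q c), map_zero, mul_zero, ← neg_smul] at this
    exact this
  have heps : ∀ c : K, (∀ p q, p ≠ q → F.El (B.e p) ((-F.ε * c) • B.e q) 0 ∈ H) →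
      ∀ p q, p ≠ q → F.El (B.e p) (c • B.e q) 0 ∈ H := by
    intro c hc
    rcases eps_cases F with h | h
    · rw [h] at hc
      have := hneg _ hc
      simpa using this
    · rw [h] at hc
      simpa using hc
  have h0 : ∀ p q, p ≠ q → F.El (B.e p) ((D.l * F.σ D.l) • B.e q) 0 ∈ H :=
    heps _ (stepX hX hr)
  -- multiplication by `σ l`
  have h1 : ∀ μ : K, (∀ p q, p ≠ q → F.El (B.e p) (μ • B.e q) 0 ∈ H) →
      ∀ p q, p ≠ q → F.El (B.e p) ((F.σ D.l * μ) • B.e q) 0 ∈ H := by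
    intro μ hμ
    apply heps
    intro j i hji
    obtain ⟨a, b, ha, hb, hab⟩ := fr hX {i, j} (by
      have := Finset.card_le_two (a := i) (b := j); omega)
    obtain ⟨c, c', hc, hc', hcc⟩ := fr hX {i, j, a, b} (by
      have := Finset.card_le_four (a := i) (b := j) (c := a) (d := b); omega)
    obtain ⟨k, -, hk, -, -⟩ := fr hX ({i, j, a, b, c, c'} : Finset X) (by
      have := Finset.card_le_six (a := i) (b := j) (c := a) (d := b) (e := c) (f := c'); omega)
    simp only [Finset.mem_insert, Finset.mem_singleton, not_or] at ha hb hc hc' hk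
    obtain ⟨ai, aj⟩ := ha
    obtain ⟨bi, bj⟩ := hb
    obtain ⟨ci, cj, ca, cb⟩ := hc
    obtain ⟨c'i, c'j, c'a, c'b⟩ := hc'
    obtain ⟨ki, kj, ka, kb, kc, kc'⟩ := hk
    have hV : VV D a b c c' ∈ H := hr a b c a b c' hab (Ne.symm ca) (Ne.symm cb) hab
      (Ne.symm c'a) (Ne.symm c'b)
    have hU : F.El (B.e i) (D.l • (B.e c - B.e k)) 0 ∈ H :=
      stepU hX hr (Ne.symm ci) (Ne.symm ki) (Ne.symm kc)
    have m := comm_in hV hU
    rw [comm1 _ (adm_diff_e i c k D.l) (VV_e (Ne.symm ci) (Ne.symm ai) (Ne.symm c'i))] at m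
    have e1 : (VV D a b c c').1 (D.l • (B.e c - B.e k)) - D.l • (B.e c - B.e k) =
        D.l • (om D a b + D.s2 • B.f c) := by
      rw [map_smul, map_sub, VV_ec (Ne.symm ca) (Ne.symm cb) hcc, VV_e kc ka kc']; module
    rw [e1] at m
    set s := F.ε * F.h (D.l • (B.e c - B.e k)) ((VV D a b c c').1 (D.l • (B.e c - B.e k))) with hs
    set M := F.El (B.e i) (D.l • (om D a b + D.s2 • B.f c)) s with hM
    have hadm : F.Adm (B.e i) (D.l • (om D a b + D.s2 • B.f c)) s := by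
      have a1 := adm_diff_e (B := B) i c k D.l
      have a2 := (Adm_conj (VV D a b c c') (u := B.e i) (w := D.l • (B.e c - B.e k)) (s := 0)).2 a1
      rw [VV_e (Ne.symm ci) (Ne.symm ai) (Ne.symm c'i)] at a2
      have a3 := Adm_mul a2 (Adm_inv a1)
      rw [← sub_eq_add_neg, e1, F.h_neg] at a3
      convert a3 using 1
      rw [hs, map_zero]; ring
    have hU2 : F.El (B.e j) (μ • B.e a) 0 ∈ H := hμ j a (Ne.symm aj)
    have Mj : M.1 (B.e j) = B.e j := by
      apply El_fix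
      · exact B.hee _ _
      · rw [F.h_smul_right, F.h_add_right, e_om, if_neg aj, F.h_smul_right, B.hef,
          if_neg (Ne.symm cj)]; ring
    have Ma : M.1 (B.e a) = B.e a - (F.ε * F.σ D.l) • B.e i := by
      rw [hM, El_ap hadm, B.hee, F.h_smul_right, F.h_add_right, e_om, if_pos rfl, F.h_smul_right,
        B.hef, if_neg (Ne.symm ca)]
      module
    have m2 := comm_in m hU2
    rw [comm1 _ (adm_ee j a μ) Mj] at m2
    have e3 : M.1 (μ • B.e a) - μ • B.e a = (-F.ε * (F.σ D.l * μ)) • B.e i := by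
      rw [map_smul, Ma]; module
    have e4 : F.h (μ • B.e a) (M.1 (μ • B.e a)) = 0 := by
      rw [map_smul, Ma]
      simp only [F.h_smul, F.h_smul_right, F.h_sub_right, B.hee]; ring
    rw [e3, e4, mul_zero] at m2
    exact m2
  have h2 : ∀ n : ℕ, ∀ p q, p ≠ q → F.El (B.e p) ((F.σ D.l ^ n * (D.l * F.σ D.l)) • B.e q) 0 ∈ H := by
    intro n
    induction n with
    | zero => simpa using h0
    | succ n ih =>
      have := h1 _ ih
      rw [← mul_assoc, ← pow_succ'] at this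
      exact this
  intro p q hpq μ
  by_cases hμ : μ = 0
  · rw [hμ, zero_smul, El_one]; exact H.one_mem
  · have hl' : F.σ D.l ≠ 0 := fun h => D.hl (F.σ_eq_zero.1 h)
    have hll : D.l * F.σ D.l ≠ 0 := mul_ne_zero D.hl hl'
    have hσ : F.σ (μ * (D.l * F.σ D.l)⁻¹) ≠ 0 := fun h =>
      mul_ne_zero hμ (inv_ne_zero hll) (F.σ_eq_zero.1 h)
    obtain ⟨n, hn⟩ := D.gen _ hσ
    have h5 := h2 n p q hpq
    have h6 : F.σ D.l ^ n = μ * (D.l * F.σ D.l)⁻¹ := by
      rw [← map_pow, ← hn, F.σσ]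
    rw [h6, mul_assoc, inv_mul_cancel₀ hll, mul_one] at h5
    exact h5

/-- the constant -/
noncomputable def c0 (D : Seed3 B) : K := F.ε * D.s1 - F.ε * F.h (B.v 1) (B.v 0)

/-- the anisotropic part -/
noncomputable def w0 (D : Seed3 B) : V := B.v 1 + F.ε • B.v 0

theorem w0_e (D : Seed3 B) (x : X) : F.h (w0 D) (B.e x) = 0 := by
  rw [w0, F.h_add, F.h_smul, B.hve, B.hve]; ring

theorem w0_f (D : Seed3 B) (x : X) : F.h (w0 D) (B.f x) = 0 := by
  rw [w0, F.h_add, F.h_smul, B.hvf, B.hvf]; ring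

theorem e_w0 (D : Seed3 B) (x : X) : F.h (B.e x) (w0 D) = 0 := F.h_symm_zero (w0_e D x)

theorem f_w0 (D : Seed3 B) (x : X) : F.h (B.f x) (w0 D) = 0 := F.h_symm_zero (w0_f D x)

theorem om_eq' (D : Seed3 B) {a b : X} (h : a ≠ b) : om D a b = B.f a + w0 D +
    ((F.ε * D.l) • B.e b + c0 D • B.e a) := by
  rw [om_eq D h, w0, c0]
  module

theorem om_f (D : Seed3 B) {a b x : X} (h : a ≠ b) (h1 : x ≠ a) (h2 : x ≠ b) :
    F.h (om D a b) (B.f x) = 0 := by
  rw [om_eq' D h, F.h_add, F.h_add, F.h_add, F.h_smul, F.h_smul, B.hff, w0_f, B.hef, B.hef,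
    if_neg (Ne.symm h2), if_neg (Ne.symm h1)]; ring

theorem adm_M (D : Seed3 B) {i a b c c' : X} (t : K) (hic : i ≠ c) (hia : i ≠ a) (hic' : i ≠ c')
    (hac : a ≠ c) (hbc : b ≠ c) (hcc : c ≠ c') :
    F.Adm (B.e i) (t • (om D a b + D.s2 • B.f c)) (F.ε * (t * F.σ t * F.σ D.s2)) := by
  have e1 : (VV D a b c c').1 (t • B.e c) - t • B.e c = t • (om D a b + D.s2 • B.f c) := by
    rw [map_smul, VV_ec hac hbc hcc]; module
  have e2 : F.h (t • B.e c) ((VV D a b c c').1 (t • B.e c)) = t * F.σ t * F.σ D.s2 := by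
    rw [map_smul, VV_ec hac hbc hcc]
    simp only [F.h_smul, F.h_smul_right, F.h_add_right, B.hee, e_om, if_neg hac, B.hef, if_true]
    ring
  have a1 := adm_ee (B := B) i c t
  have a2 := (Adm_conj (VV D a b c c') (u := B.e i) (w := t • B.e c) (s := 0)).2 a1
  rw [VV_e hic hia hic'] at a2
  have a3 := Adm_mul a2 (Adm_inv a1)
  rw [← sub_eq_add_neg, e1, F.h_neg, e2] at a3
  convert a3 using 1
  rw [map_zero]; ring

/-- the parameter of `N` -/
noncomputable def sN (D : Seed3 B) (t : K) : K := F.ε * (t * F.σ t * (F.σ D.s2 + c0 D))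

/-- step 6a -/
theorem stepN (hX : 9 ≤ Fintype.card X) (hr : Rat D H) {i a c : X} (hia : i ≠ a) (hic : i ≠ c)
    (hac : a ≠ c) (t : K) :
    F.Adm (B.e i) (t • (B.f a + w0 D + D.s2 • B.f c)) (sN D t) ∧
    F.El (B.e i) (t • (B.f a + w0 D + D.s2 • B.f c)) (sN D t) ∈ H := by
  obtain ⟨b, c', hb, hc', hbc'⟩ := fr hX {i, a, c} (by
    have := Finset.card_le_three (a := i) (b := a) (c := c); omega)
  simp only [Finset.mem_insert, Finset.mem_singleton, not_or] at hb hc'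
  obtain ⟨bi, ba, bc⟩ := hb
  obtain ⟨c'i, c'a, c'c⟩ := hc'
  have hV : VV D a b c c' ∈ H := hr a b c a b c' (Ne.symm ba) hac bc (Ne.symm ba)
    (Ne.symm c'a) hbc'
  have m := stepM D hV t hic hia (Ne.symm c'i) hac bc (Ne.symm c'c) (stepEE hX hr i c hic t)
  have am := adm_M D t hic hia (Ne.symm c'i) hac bc (Ne.symm c'c)
  have k1 := stepEE hX hr i b (Ne.symm bi) (-(t * (F.ε * D.l)))
  have k2 := stepEE hX hr i a hia (-(t * c0 D))
  have a1 := adm_ee (B := B) i b (-(t * (F.ε * D.l)))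
  have a2 := adm_ee (B := B) i a (-(t * c0 D))
  have m1 := H.mul_mem k1 k2
  have a3 := Adm_mul a1 a2
  rw [El_mul a1 a2] at m1
  have m2 := H.mul_mem m m1
  have a4 := Adm_mul am a3
  rw [El_mul am a3] at m2
  have e1 : t • (om D a b + D.s2 • B.f c) + ((-(t * (F.ε * D.l))) • B.e b +
      (-(t * c0 D)) • B.e a) = t • (B.f a + w0 D + D.s2 • B.f c) := by
    rw [om_eq' D (Ne.symm ba)]; module
  have e2 : F.ε * (t * F.σ t * F.σ D.s2) + (0 + 0 - F.ε * F.h ((-(t * c0 D)) • B.e a)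
      ((-(t * (F.ε * D.l))) • B.e b)) - F.ε * F.h ((-(t * (F.ε * D.l))) • B.e b +
      (-(t * c0 D)) • B.e a) (t • (om D a b + D.s2 • B.f c)) = sN D t := by
    simp only [F.h_add, F.h_add_right, F.h_smul, F.h_smul_right, B.hee, e_om, B.hef,
      if_neg (Ne.symm ba), if_neg bc, if_neg hac, if_true, sN]
    ring
  rw [e1, e2] at m2 a4
  exact ⟨a4, m2⟩

/-- step 6b -/
theorem stepZ (hX : 9 ≤ Fintype.card X) (hr : Rat D H) {i a a' : X} (hia : i ≠ a) (hia' : i ≠ a')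
    (haa : a ≠ a') (t : K) : F.El (B.e i) (t • (B.f a - B.f a')) 0 ∈ H := by
  obtain ⟨c, -, hc, -, -⟩ := fr hX {i, a, a'} (by
    have := Finset.card_le_three (a := i) (b := a) (c := a'); omega)
  simp only [Finset.mem_insert, Finset.mem_singleton, not_or] at hc
  obtain ⟨ci, ca, ca'⟩ := hc
  obtain ⟨a1, m1⟩ := stepN hX hr hia (Ne.symm ci) (Ne.symm ca) t
  obtain ⟨a2, m2⟩ := stepN hX hr hia' (Ne.symm ci) (Ne.symm ca') t
  have m := H.mul_mem m1 (H.inv_mem m2)
  rw [El_ratio a1 a2] at m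
  · have e : t • (B.f a + w0 D + D.s2 • B.f c) - t • (B.f a' + w0 D + D.s2 • B.f c) =
        t • (B.f a - B.f a') := by module
    rwa [e] at m
  · simp only [F.h_add, F.h_add_right, F.h_smul, F.h_smul_right, B.hff, w0_f, f_w0]

/-- the quotient with different first indices -/
theorem stepC3 (hr : Rat D H) {a a' b c : X} (h1 : a ≠ a') (h2 : a ≠ b) (h3 : a ≠ c)
    (h4 : a' ≠ b) (h5 : a' ≠ c) (h6 : b ≠ c) :
    D.E a b * F.El (B.f c) (B.f a - B.f a') 0 * (D.E a' b)⁻¹ ∈ H := by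
  have m := hr a b c a' b c h2 h3 h6 h4 h5 h6
  have e : (D.E a b * D.L c a) * (D.E a' b * D.L c a')⁻¹ =
      D.E a b * (D.L c a * (D.L c a')⁻¹) * (D.E a' b)⁻¹ := by group
  rw [e] at m
  have e2 : D.L c a * (D.L c a')⁻¹ = F.El (B.f c) (B.f a - B.f a') 0 := by
    unfold Seed3.L
    rw [El_ratio (D.admL c a) (D.admL c a')]
    · congr 1; module
    · simp only [F.h_add, F.h_add_right, B.hff, B.hfv, B.hvf]
  rwa [e2] at m

theorem adm_ff_diff (c a a' : X) (t : K) : F.Adm (B.f c) (t • (B.f a - B.f a')) 0 := by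
  refine ⟨B.hff _ _, B.qf _, ?_, ?_, ?_⟩
  · rw [F.h_smul_right, F.h_sub_right, B.hff, B.hff]; ring
  · simp only [F.h_smul, F.h_smul_right, F.h_sub, F.h_sub_right, B.hff, map_zero]; ring
  · rw [F.q_smul, sub_eq_add_neg, F.q_add, F.q_neg, B.qf, B.qf, F.h_neg_right, B.hff]; ring

theorem adm_ff_diff1 (c a a' : X) : F.Adm (B.f c) (B.f a - B.f a') 0 := by
  have := adm_ff_diff (B := B) c a a' 1
  rwa [one_smul] at this

/-- step 7 -/
theorem stepA (hX : 9 ≤ Fintype.card X) (hr : Rat D H) (j : X) (t : K) :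
    F.El (B.e j) ((t * F.ε) • B.v 0) (F.ε * (t * F.σ t * F.σ D.s1)) ∈ H := by
  have e2 := F.ε2
  obtain ⟨a, a', ha, ha', haa⟩ := fr hX {j} (by simp)
  obtain ⟨b, c, hb, hc, hbc⟩ := fr hX {j, a, a'} (by
    have := Finset.card_le_three (a := j) (b := a) (c := a'); omega)
  simp only [Finset.mem_insert, Finset.mem_singleton, not_or] at ha ha' hb hc
  obtain ⟨bj, ba, ba'⟩ := hb
  obtain ⟨cj, ca, ca'⟩ := hc
  have hC := stepC3 (D := D) hr haa (Ne.symm ba) (Ne.symm ca) (Ne.symm ba') (Ne.symm ca') hbc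
  set C3 := D.E a b * F.El (B.f c) (B.f a - B.f a') 0 * (D.E a' b)⁻¹ with hC3
  have k1 : C3.1 (B.e j) = B.e j := by
    have e1 : ((D.E a' b)⁻¹).1 (B.e j) = B.e j := inv_fix (D.E_e a' b j)
    have e3 : (F.El (B.f c) (B.f a - B.f a') 0).1 (B.e j) = B.e j := by
      apply El_fix
      · rw [B.hef, if_neg (Ne.symm cj)]
      · rw [F.h_sub_right, B.hef, B.hef, if_neg (Ne.symm ha), if_neg (Ne.symm ha')]; ring
    rw [hC3, mul_ap, mul_ap, e1, e3, D.E_e]
  have k2 : C3.1 (B.e c) = B.e c + ((B.f a - B.f a') + (F.ε • (D.l • B.e b + B.v 0) +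
      (F.ε * D.s1) • B.e a)) := by
    have e1 : ((D.E a' b)⁻¹).1 (B.e c) = B.e c := inv_fix (D.E_e a' b c)
    have e3 : (F.El (B.f c) (B.f a - B.f a') 0).1 (B.e c) = B.e c + (B.f a - B.f a') := by
      rw [El_ap (adm_ff_diff1 c a a'), B.hef, if_pos rfl, F.h_sub_right, B.hef, B.hef, if_neg ca,
        if_neg ca']
      module
    rw [hC3, mul_ap, mul_ap, e1, e3, map_add, map_sub, D.E_e, D.E_fa (Ne.symm ba),
      D.E_f (Ne.symm haa) (Ne.symm ba')]
    module
  have m := comm_in hC (stepEE hX hr j c (Ne.symm cj) t)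
  rw [comm1 _ (adm_ee j c t) k1] at m
  have e3 : C3.1 (t • B.e c) - t • B.e c = t • ((B.f a - B.f a') + (F.ε • (D.l • B.e b + B.v 0) +
      (F.ε * D.s1) • B.e a)) := by
    rw [map_smul, k2]; module
  have e4 : F.h (t • B.e c) (C3.1 (t • B.e c)) = 0 := by
    rw [map_smul, k2]
    simp only [F.h_add_right, F.h_smul, F.h_smul_right, F.h_sub_right, B.hee, B.hev, B.hef,
      if_neg ca, if_neg ca']; ring
  rw [e3, e4, mul_zero] at m
  have am : F.Adm (B.e j) (t • ((B.f a - B.f a') + (F.ε • (D.l • B.e b + B.v 0) +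
      (F.ε * D.s1) • B.e a))) 0 := by
    have a1 := adm_ee (B := B) j c t
    have a2 := (Adm_conj C3 (u := B.e j) (w := t • B.e c) (s := 0)).2 a1
    rw [k1] at a2
    have a3 := Adm_mul a2 (Adm_inv a1)
    rw [← sub_eq_add_neg, e3, F.h_neg, e4] at a3
    convert a3 using 1
    rw [map_zero]; ring
  -- multiply
  have q1 := stepZ hX hr (Ne.symm ha) (Ne.symm ha') haa (-t)
  have q2 := stepEE hX hr j b (Ne.symm bj) (-(t * (F.ε * D.l)))
  have q3 := stepEE hX hr j a (Ne.symm ha) (-(t * (F.ε * D.s1)))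
  have b1 := adm_diff_f (B := B) (Ne.symm ha) (Ne.symm ha') (-t)
  have b2 := adm_ee (B := B) j b (-(t * (F.ε * D.l)))
  have b3 := adm_ee (B := B) j a (-(t * (F.ε * D.s1)))
  have m2 := H.mul_mem m (H.mul_mem q1 (H.mul_mem q2 q3))
  have b4 := Adm_mul b2 b3
  rw [El_mul b2 b3] at m2
  have b5 := Adm_mul b1 b4
  rw [El_mul b1 b4, El_mul am b5] at m2
  convert m2 using 1
  congr 1
  · module
  · simp only [F.h_add, F.h_add_right, F.h_smul, F.h_smul_right, F.h_sub, F.h_sub_right, B.hee,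
      B.hev, B.hef, B.hfe, B.hff, B.hfv, if_neg (Ne.symm ba), if_neg (Ne.symm ba'), if_neg haa,
      if_neg ba, if_neg ba', if_neg (Ne.symm haa), if_true, map_mul, map_neg, F.σε, map_zero]
    linear_combination (-(F.ε * t * F.σ t * F.σ D.s1)) * e2

theorem adm_sc {u w : V} {s : K} (h : F.Adm u w s) (c : K) : F.Adm u (c • w) (c * F.σ c * s) := by
  obtain ⟨a1, a2, a3, a4, a5⟩ := h
  refine ⟨a1, a2, by rw [F.h_smul_right, a3, mul_zero], ?_, ?_⟩
  · rw [F.h_smul, F.h_smul_right, map_mul, map_mul, F.σσ]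
    linear_combination (c * F.σ c) * a4
  · rw [F.q_smul]
    linear_combination (c * F.σ c) * a5

theorem adm_v0 (D : Seed3 B) (j : X) : F.Adm (B.e j) (B.v 0) D.s1 :=
  ⟨B.hee _ _, B.qe _, B.hev _ _, D.t1, D.t1'⟩

theorem adm_v1 (D : Seed3 B) (j : X) : F.Adm (B.e j) (B.v 1) D.s2 :=
  ⟨B.hee _ _, B.qe _, B.hev _ _, D.t2, D.t2'⟩

theorem adm_v1f (D : Seed3 B) (j : X) : F.Adm (B.f j) (B.v 1) D.s2 :=
  ⟨B.hff _ _, B.qf _, B.hfv _ _, D.t2, D.t2'⟩

/-- step 7, normal form -/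
theorem stepA' (hX : 9 ≤ Fintype.card X) (hr : Rat D H) (j : X) (c : K) :
    F.El (B.e j) (c • B.v 0) (c * F.σ c * D.s1) ∈ H := by
  have e2 := F.ε2
  have m := H.inv_mem (stepA hX hr j (-(F.ε * c)))
  have e3 : (-(F.ε * c) * F.ε) • B.v 0 = (-c) • B.v 0 := by
    congr 1; linear_combination (-c) * e2
  have a1 : F.Adm (B.e j) ((-c) • B.v 0) (F.ε * F.σ (c * F.σ c * D.s1)) := by
    have := Adm_inv (adm_sc (adm_v0 D j) c)
    rwa [← neg_smul] at this
  have e4 : F.ε * (-(F.ε * c) * F.σ (-(F.ε * c)) * F.σ D.s1) = F.ε * F.σ (c * F.σ c * D.s1) := by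
    simp only [map_mul, map_neg, F.σε, F.σσ]
    linear_combination (F.ε * c * F.σ c * F.σ D.s1) * e2
  rw [e3, e4, El_inv a1] at m
  have e5 : -((-c) • B.v 0) = c • B.v 0 := by module
  have e6 : F.ε * F.σ (F.ε * F.σ (c * F.σ c * D.s1)) = c * F.σ c * D.s1 := by
    rw [map_mul, F.σε, F.σσ]
    linear_combination (c * F.σ c * D.s1) * e2
  rwa [e5, e6] at m

theorem stepE (hX : 9 ≤ Fintype.card X) (hr : Rat D H) {a b : X} (h : a ≠ b) : D.E a b ∈ H := by
  have m1 := stepEE hX hr a b h D.l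
  have m2 := stepA' hX hr a 1
  have e : (1 : K) * F.σ 1 * D.s1 = D.s1 := by rw [map_one]; ring
  rw [one_smul, e] at m2
  have m := H.mul_mem m1 m2
  rw [El_mul (adm_ee a b D.l) (adm_v0 D a), F.h_smul_right, B.hve] at m
  unfold Seed3.E
  convert m using 2
  ring

/-- step 8a -/
theorem stepL (hX : 9 ≤ Fintype.card X) (hr : Rat D H) {a c a' c' : X} (h : a ≠ c)
    (h' : a' ≠ c') : D.L c a * (D.L c' a')⁻¹ ∈ H := by
  obtain ⟨b, -, hb, -, -⟩ := fr hX {a, c, a', c'} (by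
    have := Finset.card_le_four (a := a) (b := c) (c := a') (d := c'); omega)
  simp only [Finset.mem_insert, Finset.mem_singleton, not_or] at hb
  obtain ⟨ba, bc, ba', bc'⟩ := hb
  have m := hr a b c a' b c' (Ne.symm ba) h bc (Ne.symm ba') h' bc'
  have m1 := stepE hX hr (Ne.symm ba)
  have m2 := stepE hX hr (Ne.symm ba')
  have e : D.L c a * (D.L c' a')⁻¹ = (D.E a b)⁻¹ * ((D.E a b * D.L c a) *
      (D.E a' b * D.L c' a')⁻¹) * D.E a' b := by group
  rw [e]
  exact H.mul_mem (H.mul_mem (H.inv_mem m1) m) m2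

theorem stepY (hX : 9 ≤ Fintype.card X) (hr : Rat D H) {a a' c : X} (h : a ≠ c)
    (h' : a' ≠ c) : F.El (B.f c) (B.f a - B.f a') 0 ∈ H := by
  have m := stepL hX hr h h'
  have e2 : D.L c a * (D.L c a')⁻¹ = F.El (B.f c) (B.f a - B.f a') 0 := by
    unfold Seed3.L
    rw [El_ratio (D.admL c a) (D.admL c a')]
    · congr 1; module
    · simp only [F.h_add, F.h_add_right, B.hff, B.hfv, B.hvf]
  rwa [e2] at m

theorem neg_eps {G : Type*} {P : K → Prop} (F : Frm K V) (h : ∀ c : K, P (-(c * F.ε))) (_ : G)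
    (c : K) : P c := by
  have := h (-(F.ε * c))
  have e : -(-(F.ε * c) * F.ε) = c := by linear_combination c * F.ε2
  rwa [e] at this

/-- step 8b -/
theorem stepEF (hX : 9 ≤ Fintype.card X) (hr : Rat D H) :
    ∀ p q : X, p ≠ q → ∀ μ : K, F.El (B.e p) (μ • B.f q) 0 ∈ H := by
  intro j c hjc
  obtain ⟨a, a', ha, ha', haa⟩ := fr hX {j, c} (by
    have := Finset.card_le_two (a := j) (b := c); omega)
  simp only [Finset.mem_insert, Finset.mem_singleton, not_or] at ha ha'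
  obtain ⟨aj, ac⟩ := ha
  obtain ⟨a'j, a'c⟩ := ha'
  refine neg_eps (P := fun μ => F.El (B.e j) (μ • B.f c) 0 ∈ H) F (fun t => ?_) ()
  have m := comm_in (stepY hX hr ac a'c) (stepEE hX hr j a (Ne.symm aj) t)
  have k1 : (F.El (B.f c) (B.f a - B.f a') 0).1 (B.e j) = B.e j := by
    apply El_fix
    · rw [B.hef, if_neg hjc]
    · rw [F.h_sub_right, B.hef, B.hef, if_neg (Ne.symm aj), if_neg (Ne.symm a'j)]; ring
  have k2 : (F.El (B.f c) (B.f a - B.f a') 0).1 (B.e a) = B.e a - F.ε • B.f c := by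
    rw [El_ap (adm_ff_diff1 c a a'), B.hef, if_neg ac, F.h_sub_right, B.hef, B.hef, if_pos rfl,
      if_neg haa]
    module
  rw [comm1 _ (adm_ee j a t) k1, map_smul, k2] at m
  have e3 : t • (B.e a - F.ε • B.f c) - t • B.e a = (-(t * F.ε)) • B.f c := by module
  have e4 : F.h (t • B.e a) (t • (B.e a - F.ε • B.f c)) = 0 := by
    simp only [F.h_smul, F.h_smul_right, F.h_sub_right, B.hee, B.hef, if_neg ac]; ring
  rwa [e3, e4, mul_zero] at m

/-- step 9 -/
theorem stepFF (hX : 9 ≤ Fintype.card X) (hr : Rat D H) :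
    ∀ p q : X, p ≠ q → ∀ μ : K, F.El (B.f p) (μ • B.f q) 0 ∈ H := by
  intro c k hck
  obtain ⟨a, a', ha, ha', haa⟩ := fr hX {c, k} (by
    have := Finset.card_le_two (a := c) (b := k); omega)
  simp only [Finset.mem_insert, Finset.mem_singleton, not_or] at ha ha'
  obtain ⟨ac, ak⟩ := ha
  obtain ⟨a'c, a'k⟩ := ha'
  refine neg_eps (P := fun μ => F.El (B.f c) (μ • B.f k) 0 ∈ H) F (fun t => ?_) ()
  have m := comm_in (stepEF hX hr a' k a'k t) (stepY hX hr ac a'c)
  have k1 : ∀ x, x ≠ a' → (F.El (B.e a') (t • B.f k) 0).1 (B.f x) = B.f x := by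
    intro x hx
    apply El_fix
    · rw [B.hfe, if_neg hx]
    · rw [F.h_smul_right, B.hff]; ring
  have k2 : (F.El (B.e a') (t • B.f k) 0).1 (B.f a') = B.f a' + (t * F.ε) • B.f k := by
    rw [El_ap (adm_ef a'k t), B.hfe, if_pos rfl, F.h_smul_right, B.hff]
    module
  rw [comm1 _ (adm_ff_diff1 c a a') (k1 c (Ne.symm a'c)), map_sub, k1 a haa, k2] at m
  have e3 : B.f a - (B.f a' + (t * F.ε) • B.f k) - (B.f a - B.f a') = (-(t * F.ε)) • B.f k := by
    module
  have e4 : F.h (B.f a - B.f a') (B.f a - (B.f a' + (t * F.ε) • B.f k)) = 0 := by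
    simp only [F.h_smul, F.h_smul_right, F.h_sub, F.h_sub_right, F.h_add_right, B.hff]; ring
  rwa [e3, e4, mul_zero] at m

/-- step 10a -/
theorem stepB (hX : 9 ≤ Fintype.card X) (hr : Rat D H) {c c' : X} :
    F.El (B.f c) (B.v 1) D.s2 * (F.El (B.f c') (B.v 1) D.s2)⁻¹ ∈ H := by
  obtain ⟨a, -, ha, -, -⟩ := fr hX {c, c'} (by
    have := Finset.card_le_two (a := c) (b := c'); omega)
  simp only [Finset.mem_insert, Finset.mem_singleton, not_or] at ha
  obtain ⟨ac, ac'⟩ := ha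
  have m := stepL hX hr ac ac'
  have e : ∀ c : X, a ≠ c → D.L c a = F.El (B.f c) ((1 : K) • B.f a) 0 *
      F.El (B.f c) (B.v 1) D.s2 := by
    intro c hc
    rw [El_mul (adm_ff c a 1) (adm_v1f D c), F.h_smul_right, B.hvf, one_smul]
    unfold Seed3.L
    congr 1
    ring
  rw [e c ac, e c' ac'] at m
  have m1 := stepFF hX hr c a (Ne.symm ac) 1
  have m2 := stepFF hX hr c' a (Ne.symm ac') 1
  have e3 : F.El (B.f c) (B.v 1) D.s2 * (F.El (B.f c') (B.v 1) D.s2)⁻¹ =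
      (F.El (B.f c) ((1 : K) • B.f a) 0)⁻¹ * (F.El (B.f c) ((1 : K) • B.f a) 0 *
      F.El (B.f c) (B.v 1) D.s2 * (F.El (B.f c') ((1 : K) • B.f a) 0 *
      F.El (B.f c') (B.v 1) D.s2)⁻¹) * F.El (B.f c') ((1 : K) • B.f a) 0 := by group
  rw [e3]
  exact H.mul_mem (H.mul_mem (H.inv_mem m1) m) m2

theorem sc_mem {H : Subgroup F.G} {u w : V} (h : ∀ μ : K, F.El u (μ • w) 0 ∈ H) (c s : K) :
    F.El (c • u) (s • w) 0 ∈ H := by
  by_cases hc : c = 0
  · rw [hc, zero_smul, El_zero]; exact H.one_mem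
  · rw [El_smul hc, smul_smul, mul_zero]
    exact h _

/-- step 10b -/
theorem stepB' (hX : 9 ≤ Fintype.card X) (hr : Rat D H) (k : X) :
    F.El (B.f k) (B.v 1) D.s2 ∈ H := by
  have e2 := F.ε2
  obtain ⟨c, c', hc, hc', hcc⟩ := fr hX {k} (by simp)
  simp only [Finset.mem_singleton] at hc hc'
  have m0 := stepB (D := D) (H := H) (c := c) (c' := c') hX hr
  have hx := stepEF hX hr c k hc F.ε
  set x := F.El (B.e c) (F.ε • B.f k) 0 with hxd
  have x1 : x.1 (B.f c) = B.f c + B.f k := by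
    rw [hxd, El_ap (adm_ef hc _), B.hfe, if_pos rfl, F.h_smul_right, B.hff, smul_smul, e2]
    module
  have x2 : x.1 (B.f c') = B.f c' := by
    apply El_fix
    · rw [B.hfe, if_neg (Ne.symm hcc)]
    · rw [F.h_smul_right, B.hff]; ring
  have x3 : x.1 (B.v 1) = B.v 1 := by
    apply El_fix
    · exact B.hve _ _
    · rw [F.h_smul_right, B.hvf]; ring
  have m := comm_in hx m0
  have e : x * (F.El (B.f c) (B.v 1) D.s2 * (F.El (B.f c') (B.v 1) D.s2)⁻¹) * x⁻¹ *
      (F.El (B.f c) (B.v 1) D.s2 * (F.El (B.f c') (B.v 1) D.s2)⁻¹)⁻¹ =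
      (x * F.El (B.f c) (B.v 1) D.s2 * x⁻¹) * (x * F.El (B.f c') (B.v 1) D.s2 * x⁻¹)⁻¹ *
      F.El (B.f c') (B.v 1) D.s2 * (F.El (B.f c) (B.v 1) D.s2)⁻¹ := by group
  rw [e, El_conj, El_conj, x1, x2, x3, El_add_left (adm_v1f D c) (adm_v1f D k) (B.hff _ _),
    inv_mul_cancel_right, mul_inv_cancel_right] at m
  exact (Subgroup.mul_mem_cancel_left H (stepFF hX hr k c (Ne.symm hc) D.s2)).1 m

/-- step 10c -/
theorem stepW (hX : 9 ≤ Fintype.card X) (hr : Rat D H) (j : X) (ν : K) :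
    F.El (ν • B.e j) (B.v 1) D.s2 ∈ H := by
  have e2 := F.ε2
  obtain ⟨k, -, hk, -, -⟩ := fr hX {j} (by simp)
  simp only [Finset.mem_singleton] at hk
  have m0 := stepB' hX hr k
  have hx := stepEE hX hr j k (Ne.symm hk) (-F.σ ν)
  set x := F.El (B.e j) ((-F.σ ν) • B.e k) 0 with hxd
  have x1 : x.1 (B.f k) = B.f k + ν • B.e j := by
    rw [hxd, El_ap (adm_ee j k _), B.hfe, if_neg hk, F.h_smul_right, B.hfe, if_pos rfl, map_neg,
      F.σσ]
    have : F.ε * (-ν * F.ε) = -ν := by linear_combination (-ν) * e2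
    rw [this]
    module
  have x3 : x.1 (B.v 1) = B.v 1 := by
    apply El_fix
    · exact B.hve _ _
    · rw [F.h_smul_right, B.hve]; ring
  have m := comm_in hx m0
  have a1 : F.Adm (ν • B.e j) (B.v 1) D.s2 :=
    adm_smul (adm_v1 D j) (fun c => by rw [F.h_smul, B.hev, mul_zero]) ν
  rw [El_conj, x1, x3, El_add_left (adm_v1f D k) a1 (by
    rw [F.h_smul_right, B.hfe, if_neg hk, mul_zero]), mul_inv_cancel_right] at m
  exact (Subgroup.mul_mem_cancel_left H (sc_mem (stepEF hX hr j k (Ne.symm hk)) ν D.s2)).1 m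

/-- the isolation theorem -/
theorem roots_of (hX : 9 ≤ Fintype.card X) (hr : Rat D H) : Roots B H := by
  have e2 := F.ε2
  refine ⟨stepEF hX hr, stepEE hX hr, stepFF hX hr, ?_, ?_⟩
  · intro p s hs
    have hs1 : F.ε * s + F.σ s = 0 := by
      have := hs.2.2.2.1
      rwa [F.h_zero_left, add_zero] at this
    have hs2 : F.κ * s = 0 := by
      have := hs.2.2.2.2
      rwa [F.q_zero, add_zero] at this
    rcases D.pure s hs1 hs2 with ⟨c, hc⟩ | ⟨hv, ν, hν⟩
    · obtain ⟨q, -, hq, -, -⟩ := fr hX {p} (by simp)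
      simp only [Finset.mem_singleton] at hq
      have a1 := adm_ef (B := B) (Ne.symm hq) (1 : K)
      have a2 := adm_ee (B := B) p q c
      have m1 := H.mul_mem (stepEF hX hr p q (Ne.symm hq) 1) (stepEE hX hr p q (Ne.symm hq) c)
      have m2 := H.mul_mem (stepEE hX hr p q (Ne.symm hq) c) (stepEF hX hr p q (Ne.symm hq) 1)
      rw [El_mul a1 a2] at m1
      rw [El_mul a2 a1] at m2
      have b1 := Adm_mul a1 a2
      have b2 := Adm_mul a2 a1
      have m3 := H.mul_mem (H.inv_mem m2) m1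
      rw [El_inv b2, El_mul (Adm_inv b2) b1] at m3
      convert m3 using 1
      congr 1
      · module
      · simp only [F.h_add, F.h_add_right, F.h_smul, F.h_smul_right, F.h_neg, F.h_neg_right,
          B.hee, B.hef, B.hfe, B.hff, if_true, map_mul, map_sub, map_add, map_zero, map_one,
          F.σε, F.σσ, hc]
        linear_combination (c * F.ε - F.σ c) * e2
    · have m := stepA' hX hr p ν
      rw [hv, smul_zero, ← hν] at m
      exact m
  · intro p i a
    fin_cases i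
    · exact ⟨_, adm_sc (adm_v0 D p) a, stepA' hX hr p a⟩
    · refine ⟨_, adm_sc (adm_v1 D p) a, ?_⟩
      by_cases ha : a = 0
      · rw [ha]
        show F.El (B.e p) ((0 : K) • B.v 1) (0 * F.σ 0 * D.s2) ∈ H
        rw [zero_smul, zero_mul, zero_mul, El_one]; exact H.one_mem
      · have h1 : F.σ a ≠ 0 := fun h => ha (F.σ_eq_zero.1 h)
        have h2 := stepW hX hr p (F.σ a)
        rw [El_smul h1, F.σσ] at h2
        have e : F.σ a * a * D.s2 = a * F.σ a * D.s2 := by ring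
        rw [e] at h2
        exact h2

end iso2

end H41Cl
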