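import Mathlib
import Pool.Agent.H.MP_0335f8_al.helper41c.Iso3
import Pool.Agent.H.MP_0335f8_cl.Pure

set_option linter.unusedSectionVars false
set_option linter.unusedSimpArgs false

/-!
# The seed element has order a power of the characteristic
-/

namespace H41Cl

open H47Cl H47Cl.Frm

/-- automorphisms acting trivially on the quotients of the flag
`0 ≤ T2 ≤ T1 ≤ S1 ≤ S2 ≤ V` -/
def flagU {K V : Type*} [Field K] [AddCommGroup V] [Module K V] (T2 T1 S1 S2 : Submodule K V)
    (_ : T2 ≤ T1) (_ : T1 ≤ S1) (_ : S1 ≤ S2) : Subgroup (V ≃ₗ[K] V) where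
  carrier := {g | (∀ x, g x - x ∈ S2) ∧ (∀ x ∈ S2, g x - x ∈ S1) ∧ (∀ x ∈ S1, g x - x ∈ T1) ∧
    (∀ x ∈ T1, g x - x ∈ T2) ∧ ∀ x ∈ T2, g x = x}
  mul_mem' := by
    rename_i h1 h2 h3
    rintro g h ⟨g1, g2, g3, g4, g5⟩ ⟨k1, k2, k3, k4, k5⟩
    have key : ∀ (A B : Submodule K V), B ≤ A → (∀ x ∈ A, g x - x ∈ B) → (∀ x ∈ A, h x - x ∈ B) →
        ∀ x ∈ A, (g * h) x - x ∈ B := by
      intro A B hBA hg hh x hx
      have e1 : (g * h) x - x = (g (h x) - h x) + (h x - x) := by
        rw [LinearEquiv.mul_apply]; abel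
      rw [e1]
      refine B.add_mem (hg _ ?_) (hh _ hx)
      have e2 : h x = (h x - x) + x := by abel
      rw [e2]
      exact A.add_mem (hBA (hh x hx)) hx
    refine ⟨fun x => key ⊤ S2 le_top (fun x _ => g1 x) (fun x _ => k1 x) x trivial,
      key S2 S1 h3 g2 k2, key S1 T1 h2 g3 k3, key T1 T2 h1 g4 k4, fun x hx => ?_⟩
    rw [LinearEquiv.mul_apply, k5 x hx, g5 x hx]
  one_mem' := by
    refine ⟨fun x => ?_, fun x _ => ?_, fun x _ => ?_, fun x _ => ?_, fun x _ => rfl⟩ <;>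
    · rw [LinearEquiv.coe_one, id_eq, sub_self]
      exact Submodule.zero_mem _
  inv_mem' := by
    rename_i h1 h2 h3
    rintro g ⟨g1, g2, g3, g4, g5⟩
    have hgg : ∀ x, g (g⁻¹ x) = x := fun x => g.apply_symm_apply x
    have hgg' : ∀ x, g⁻¹ (g x) = x := fun x => g.symm_apply_apply x
    have h0 : ∀ x, g⁻¹ x - x = -(g (g⁻¹ x) - g⁻¹ x) := by
      intro x
      rw [hgg]; abel
    -- the inverse preserves each term
    have key : ∀ (A B : Submodule K V), B ≤ A → (∀ x ∈ A, g x - x ∈ B) →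
        (∀ x ∈ A, g⁻¹ x ∈ A) → ∀ x ∈ A, g⁻¹ x - x ∈ B := by
      intro A B _ hg hi x hx
      rw [h0]
      exact B.neg_mem (hg _ (hi x hx))
    have a1 : ∀ x, g⁻¹ x - x ∈ S2 := fun x => by
      rw [h0]; exact S2.neg_mem (g1 _)
    have step : ∀ A : Submodule K V, (∀ x ∈ A, g⁻¹ x - x ∈ A) → ∀ x ∈ A, g⁻¹ x ∈ A := by
      intro A hA x hx
      have e2 : g⁻¹ x = (g⁻¹ x - x) + x := by abel
      rw [e2]
      exact A.add_mem (hA x hx) hx
    have b1 : ∀ x ∈ S2, g⁻¹ x ∈ S2 := step S2 fun x _ => a1 x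
    have a2 : ∀ x ∈ S2, g⁻¹ x - x ∈ S1 := key S2 S1 h3 g2 b1
    have b2 : ∀ x ∈ S1, g⁻¹ x ∈ S1 := step S1 fun x hx => a2 x (h3 hx)
    have a3 : ∀ x ∈ S1, g⁻¹ x - x ∈ T1 := key S1 T1 h2 g3 b2
    have b3 : ∀ x ∈ T1, g⁻¹ x ∈ T1 := step T1 fun x hx => a3 x (h2 hx)
    have a4 : ∀ x ∈ T1, g⁻¹ x - x ∈ T2 := key T1 T2 h1 g4 b3
    refine ⟨a1, a2, a3, a4, fun x hx => ?_⟩
    have h4 := hgg' x
    rw [g5 x hx] at h4
    exact h4

theorem flagU_pow {K V : Type*} [Field K] [AddCommGroup V] [Module K V] (p : ℕ) [Fact p.Prime]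
    [CharP K p] (T2 T1 S1 S2 : Submodule K V) (h1 : T2 ≤ T1) (h2 : T1 ≤ S1) (h3 : S1 ≤ S2)
    (g : V ≃ₗ[K] V) (hg : g ∈ flagU T2 T1 S1 S2 h1 h2 h3) : g ^ (p ^ 3) = 1 := by
  rcases subsingleton_or_nontrivial V with hV | hV
  · apply LinearEquiv.ext
    intro x
    exact Subsingleton.elim _ _
  obtain ⟨g1, g2, g3, g4, g5⟩ := hg
  have hchar : CharP (Module.End K V) p := charP_of_injective_algebraMap' K p
  let M : Module.End K V := (g : V →ₗ[K] V) - 1
  have hM : ∀ x, M x = g x - x := fun x => rfl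
  have hM5 : M ^ 5 = 0 := by
    apply LinearMap.ext
    intro x
    have : (M ^ 5) x = M (M (M (M (M x)))) := rfl
    rw [this, LinearMap.zero_apply]
    have k1 : M x ∈ S2 := g1 x
    have k2 : M (M x) ∈ S1 := g2 _ k1
    have k3 : M (M (M x)) ∈ T1 := g3 _ k2
    have k4 : M (M (M (M x))) ∈ T2 := g4 _ k3
    rw [hM (M (M (M (M x)))), g5 _ k4, sub_self]
  have hp2 : 5 ≤ p ^ 3 := by
    have h2 := (Fact.out : p.Prime).two_le
    have : 2 ^ 3 ≤ p ^ 3 := Nat.pow_le_pow_left h2 3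
    omega
  have hMp : M ^ (p ^ 3) = 0 := by
    obtain ⟨k, hk⟩ := Nat.exists_eq_add_of_le hp2
    rw [hk, pow_add, hM5, zero_mul]
  have hgM : (g : V →ₗ[K] V) = M + 1 := (sub_add_cancel _ _).symm
  have hpow : ∀ n : ℕ, ∀ x, (g ^ n) x = ((g : V →ₗ[K] V) ^ n : Module.End K V) x := by
    intro n
    induction n with
    | zero => intro x; rfl
    | succ n ih =>
      intro x
      rw [pow_succ, pow_succ, LinearEquiv.mul_apply, Module.End.mul_apply, ih]
      rfl
  apply LinearEquiv.ext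
  intro x
  rw [hpow, hgM, add_pow_char_pow_of_commute (p := p) (n := 3) (Commute.one_right M), hMp]
  simp

variable {K V : Type*} [Field K] [AddCommGroup V] [Module K V] {F : Frm K V}
  {X : Type*} [Fintype X] [DecidableEq X] {B : Frame F X} (D : Seed3 B)

/-- the orthogonal space of a submodule -/
def perp (F : Frm K V) (T : Submodule K V) : Submodule K V where
  carrier := {x | ∀ t ∈ T, F.h x t = 0}
  add_mem' := by
    intro a b ha hb t ht
    rw [F.h_add, ha t ht, hb t ht, add_zero]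
  zero_mem' := by
    intro t _
    exact F.h_zero_left t
  smul_mem' := by
    intro c a ha t ht
    rw [F.h_smul, ha t ht, mul_zero]

theorem perp_anti {T T' : Submodule K V} (h : T ≤ T') : perp F T' ≤ perp F T :=
  fun _ hx t ht => hx t (h ht)

/-- first type: `u` in `T1`, `w` orthogonal to `T1` -/
theorem El_flag1 {T2 T1 : Submodule K V} (h1 : T2 ≤ T1) (h2 : T1 ≤ perp F T1) {u w : V} {s : K}
    (hu : u ∈ T1) (hw : w ∈ perp F T1) :
    (F.El u w s).1 ∈ flagU T2 T1 (perp F T1) (perp F T2) h1 h2 (perp_anti h1) := by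
  by_cases h : F.Adm u w s
  · have e : ∀ x, (F.El u w s).1 x - x = F.h x u • w + ((s * F.h x u) - (F.ε * F.h x w)) • u := by
      intro x
      rw [El_ap h]; module
    have hw' : ∀ t ∈ T1, F.h t w = 0 := fun t ht => F.h_symm_zero (hw t ht)
    refine ⟨fun x => ?_, fun x _ => ?_, fun x hx => ?_, fun x hx => ?_, fun x hx => ?_⟩
    · rw [e]
      exact perp_anti h1 (Submodule.add_mem _ (Submodule.smul_mem _ _ hw)
        (Submodule.smul_mem _ _ (h2 hu)))
    · rw [e]
      exact Submodule.add_mem _ (Submodule.smul_mem _ _ hw) (Submodule.smul_mem _ _ (h2 hu))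
    · rw [e, hx u hu, zero_smul, zero_add]
      exact Submodule.smul_mem _ _ hu
    · rw [e, h2 hx u hu, hw' x hx]
      simp
    · have := e x
      rw [h2 (h1 hx) u hu, hw' x (h1 hx)] at this
      simpa [sub_eq_zero] using this
  · rw [El, dif_neg h]
    exact Subgroup.one_mem _

/-- second type: `u` in `T2`, `w` orthogonal to `T2` -/
theorem El_flag2 {T2 T1 : Submodule K V} (h1 : T2 ≤ T1) (h2 : T1 ≤ perp F T1) {u w : V} {s : K}
    (hu : u ∈ T2) (hw : w ∈ perp F T2) :
    (F.El u w s).1 ∈ flagU T2 T1 (perp F T1) (perp F T2) h1 h2 (perp_anti h1) := by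
  by_cases h : F.Adm u w s
  · have e : ∀ x, (F.El u w s).1 x - x = F.h x u • w + ((s * F.h x u) - (F.ε * F.h x w)) • u := by
      intro x
      rw [El_ap h]; module
    have hw' : ∀ t ∈ T2, F.h t w = 0 := fun t ht => F.h_symm_zero (hw t ht)
    have hu1 : u ∈ perp F T1 := h2 (h1 hu)
    refine ⟨fun x => ?_, fun x hx => ?_, fun x hx => ?_, fun x hx => ?_, fun x hx => ?_⟩
    · rw [e]
      exact Submodule.add_mem _ (Submodule.smul_mem _ _ hw)
        (Submodule.smul_mem _ _ (perp_anti h1 hu1))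
    · rw [e, hx u hu, zero_smul, zero_add]
      exact Submodule.smul_mem _ _ hu1
    · rw [e, hx u (h1 hu), zero_smul, zero_add]
      exact Submodule.smul_mem _ _ (h1 hu)
    · rw [e, h2 hx u (h1 hu), zero_smul, zero_add]
      exact Submodule.smul_mem _ _ hu
    · have := e x
      rw [h2 (h1 hx) u (h1 hu), hw' x hx] at this
      simpa [sub_eq_zero] using this
  · rw [El, dif_neg h]
    exact Subgroup.one_mem _

namespace Seed3

theorem E_conj (τ : Equiv.Perm X) (a b : X) :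
    B.P τ * D.E a b * (B.P τ)⁻¹ = D.E (τ a) (τ b) := by
  unfold E
  rw [El_conj, map_add, map_smul, B.P_e, B.P_e, B.P_v]

theorem L_conj (τ : Equiv.Perm X) (c a : X) :
    B.P τ * D.L c a * (B.P τ)⁻¹ = D.L (τ c) (τ a) := by
  unfold L
  rw [El_conj, map_add, B.P_f, B.P_f, B.P_v]

theorem g_conj (τ : Equiv.Perm X) (i : Fin 3 → X) :
    B.P τ * D.g i * (B.P τ)⁻¹ = D.g (fun k => τ (i k)) := by
  unfold g
  rw [← D.E_conj, ← D.L_conj]
  group

theorem C_conj (τ : Equiv.Perm X) (i i' : Fin 3 → X) :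
    B.P τ * D.C i i' * (B.P τ)⁻¹ = D.C (fun k => τ (i k)) (fun k => τ (i' k)) := by
  unfold C
  rw [← D.g_conj τ i, ← D.g_conj τ i']
  group

theorem g_comm (τ : Equiv.Perm X) (i : Fin 3 → X) (hτ : ∀ k, τ (i k) = i k) :
    Commute (D.g i) (B.P τ) := by
  have h := D.g_conj τ i
  simp only [hτ] at h
  have h2 : B.P τ * D.g i = D.g i * B.P τ := by
    rw [← mul_inv_eq_iff_eq_mul]
    exact h
  exact h2.symm

theorem C_pow (p : ℕ) [Fact p.Prime] [CharP K p] (i i' : Fin 3 → X)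
    (hi : Function.Injective (Sum.elim i i')) : (D.C i i') ^ (p ^ 3) = 1 := by
  have n1 : ∀ a b, a ≠ b → i a ≠ i b := fun a b h h' =>
    h (Sum.inl_injective (@hi (Sum.inl a) (Sum.inl b) h'))
  have n2 : ∀ a b, a ≠ b → i' a ≠ i' b := fun a b h h' =>
    h (Sum.inr_injective (@hi (Sum.inr a) (Sum.inr b) h'))
  have n3 : ∀ a b, i a ≠ i' b := fun a b h' =>
    Sum.inl_ne_inr (@hi (Sum.inl a) (Sum.inr b) h')
  set T2 : Submodule K V := Submodule.span K {B.f (i 2), B.f (i' 2)} with hT2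
  set T1 : Submodule K V := Submodule.span K {B.f (i 2), B.f (i' 2), B.e (i 0), B.e (i' 0)} with hT1
  have h1 : T2 ≤ T1 := Submodule.span_mono (by
    intro x hx
    simp only [Set.mem_insert_iff, Set.mem_singleton_iff] at hx ⊢
    tauto)
  have hperp : ∀ (S : Set V) (x : V), (∀ s ∈ S, F.h x s = 0) →
      x ∈ perp F (Submodule.span K S) := by
    intro S x hx t ht
    induction ht using Submodule.span_induction with
    | mem t ht => exact hx t ht
    | zero => exact F.h_zero_right x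
    | add a b _ _ ha hb => rw [F.h_add_right, ha, hb, add_zero]
    | smul c a _ ha => rw [F.h_smul_right, ha, mul_zero]
  have q1 : i 0 ≠ i 2 := n1 0 2 (by decide)
  have q2 : i' 0 ≠ i' 2 := n2 0 2 (by decide)
  have q3 := n3 0 2
  have q4 := n3 2 0
  have h2 : T1 ≤ perp F T1 := by
    rw [hT1, Submodule.span_le]
    intro x hx
    apply hperp
    intro s hs
    simp only [Set.mem_insert_iff, Set.mem_singleton_iff] at hx hs
    rcases hx with rfl | rfl | rfl | rfl <;> rcases hs with rfl | rfl | rfl | rfl <;>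
      simp [B.hee, B.hff, B.hef, B.hfe, q1, q2, q3, q4, q1.symm, q2.symm, q3.symm, q4.symm]
  have mf2 : B.f (i 2) ∈ T2 := Submodule.subset_span (by simp)
  have mf2' : B.f (i' 2) ∈ T2 := Submodule.subset_span (by simp)
  have me : B.e (i 0) ∈ T1 := Submodule.subset_span (by simp)
  have me' : B.e (i' 0) ∈ T1 := Submodule.subset_span (by simp)
  have q5 : i 1 ≠ i 2 := n1 1 2 (by decide)
  have q6 : i' 1 ≠ i' 2 := n2 1 2 (by decide)
  have q7 := n3 1 2
  have q8 := n3 2 1
  have wE : D.l • B.e (i 1) + B.v 0 ∈ perp F T1 := by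
    rw [hT1]; apply hperp
    intro s hs
    simp only [Set.mem_insert_iff, Set.mem_singleton_iff] at hs
    rcases hs with rfl | rfl | rfl | rfl <;>
      simp [F.h_add, F.h_smul, B.hee, B.hef, B.hve, B.hvf, q5, q7]
  have wE' : D.l • B.e (i' 1) + B.v 0 ∈ perp F T1 := by
    rw [hT1]; apply hperp
    intro s hs
    simp only [Set.mem_insert_iff, Set.mem_singleton_iff] at hs
    rcases hs with rfl | rfl | rfl | rfl <;>
      simp [F.h_add, F.h_smul, B.hee, B.hef, B.hve, B.hvf, q6, q8.symm]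
  have wL : B.f (i 0) + B.v 1 ∈ perp F T2 := by
    rw [hT2]; apply hperp
    intro s hs
    simp only [Set.mem_insert_iff, Set.mem_singleton_iff] at hs
    rcases hs with rfl | rfl <;> simp [F.h_add, B.hff, B.hvf]
  have wL' : B.f (i' 0) + B.v 1 ∈ perp F T2 := by
    rw [hT2]; apply hperp
    intro s hs
    simp only [Set.mem_insert_iff, Set.mem_singleton_iff] at hs
    rcases hs with rfl | rfl <;> simp [F.h_add, B.hff, B.hvf]
  have k1 : (D.E (i 0) (i 1)).1 ∈ flagU T2 T1 (perp F T1) (perp F T2) h1 h2 (perp_anti h1) :=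
    El_flag1 h1 h2 me wE
  have k2 : (D.L (i 2) (i 0)).1 ∈ flagU T2 T1 (perp F T1) (perp F T2) h1 h2 (perp_anti h1) :=
    El_flag2 h1 h2 mf2 wL
  have k3 : (D.E (i' 0) (i' 1)).1 ∈ flagU T2 T1 (perp F T1) (perp F T2) h1 h2 (perp_anti h1) :=
    El_flag1 h1 h2 me' wE'
  have k4 : (D.L (i' 2) (i' 0)).1 ∈ flagU T2 T1 (perp F T1) (perp F T2) h1 h2 (perp_anti h1) :=
    El_flag2 h1 h2 mf2' wL'
  have k5 : (D.C i i').1 ∈ flagU T2 T1 (perp F T1) (perp F T2) h1 h2 (perp_anti h1) :=
    Subgroup.mul_mem _ (Subgroup.mul_mem _ k1 k2)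
      (Subgroup.inv_mem _ (Subgroup.mul_mem _ k3 k4))
  exact Subtype.ext (flagU_pow p T2 T1 _ _ h1 h2 (perp_anti h1) _ k5)

end Seed3

/-- the existence of the parameters -/
theorem exists_seed3 [Finite K] (B : Frame F X) (l : K) (hl : l ≠ 0)
    (gen : ∀ a : K, a ≠ 0 → ∃ n : ℕ, a = l ^ n) : ∃ D : Seed3 B, D.l = l := by
  obtain ⟨s2, t2, t2'⟩ := F.tr (B.v 1)
  obtain ⟨s1', t1, t1'⟩ := F.tr (B.v 0)
  obtain ⟨s0, hs0, hs0', hpure⟩ := exists_s0 F
  by_cases hv : B.v 0 = 0
  · refine ⟨⟨l, hl, gen, s0, s2, ?_, ?_, t2, t2', ?_⟩, rfl⟩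
    · rw [hv, F.h_zero_left, hs0, add_zero]
    · rw [hv, q_zero, add_zero, hs0']
    · intro s hs hs'
      rcases hpure s hs hs' with h | h
      · exact Or.inl h
      · exact Or.inr ⟨hv, h⟩
  · refine ⟨⟨l, hl, gen, s1', s2, t1, t1', t2, t2', ?_⟩, rfl⟩
    intro s hs hs'
    left
    -- as in `exists_s0`, in characteristic two with trivial involution the form is alternating
    rcases F.hκ with ⟨hκ, hq⟩ | ⟨hκ, -, -⟩
    · by_cases hex : ∃ a, a + F.σ a ≠ 0
      · obtain ⟨a, ha⟩ := hex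
        have hσs : F.σ s = -(F.ε * s) := eq_neg_of_add_eq_zero_right hs
        have ht : F.σ (a + F.σ a) = a + F.σ a := by
          rw [map_add, F.σσ, add_comm]
        refine ⟨-F.ε * a / (a + F.σ a) * s, ?_⟩
        rw [map_mul, map_div₀, map_mul, map_neg, F.σε, ht, hσs]
        have h2 := F.ε2
        field_simp
        linear_combination (-(a + F.σ a) * s) * h2
      · exfalso
        have hall : ∀ a, a + F.σ a = 0 := by
          intro a
          by_contra hne
          exact hex ⟨a, hne⟩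
        have h11 : (1 : K) + 1 = 0 := by
          have := hall 1
          rwa [map_one] at this
        have h2 : (2 : K) = 0 := by
          rw [← h11]
          norm_num
        have hσ : ∀ a, F.σ a = a := by
          intro a
          have := hall a
          linear_combination this - a * h2
        have hε : F.ε = 1 := by
          have h := F.ε2
          have h3 : (F.ε - 1) * (F.ε - 1) = 0 := by
            linear_combination h + (1 - F.ε) * h2
          exact sub_eq_zero.1 (mul_self_eq_zero.1 h3)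
        apply hv
        apply B.aniso _ (B.hve 0) (B.hvf 0) _ (hq _)
        have := t1
        rw [hε, hσ, one_mul] at this
        linear_combination this - s1' * h2
    · refine ⟨0, ?_⟩
      rw [hκ, one_mul] at hs'
      rw [hs']
      simp

end H41Cl
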