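import Mathlib
import Pool.Agent.H.MP_0335f8_cl.Final
import Pool.Agent.H.MP_0335f8_cl.Lin
import Pool.Agent.H.MP_0335f8_cl.Assemble
import Pool.Agent.H.MP_0335f8_al.helper41c.Pow3
import Pool.Agent.H.MP_0335f8_al.helper41c.Des3

set_option linter.unusedSectionVars false

/-!
# From a design with three common transpositions to the classical groups
-/

namespace H41Cl

open Equiv H47Inv H47Cl H47Cl.Frm
open scoped commutatorElement

/-- The final step.

Proof.  Let `H` be the closure of `P '' Alt ∪ {C}`.  `H ≤ commutator G`: for `n ≥ 5` the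
alternating group is perfect (`commutator_alternatingGroup_eq_self`), so `P '' Alt` is in the
commutator subgroup, and `C = g (P π) g⁻¹ (P π)⁻¹`.  With `hgen`, `H = commutator G`.  By
`engine`, with `γ = g * P π * g⁻¹`, the closure of `{P α, P β, γ}` is `commutator G`.  The tuple
is `(α, β, αβ, γ, γ)` (images in `commutator G` modulo its centre): product `1`; they generate;
they are conjugate in `commutator G` as `P c ∈ commutator G` for even `c` and `g ∈ commutator G`.
The group `commutator G` modulo its centre contains a nonabelian perfect image of the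
alternating group, which gives the lower bound. -/
theorem final3 {G : Type*} [Group G] {X : Type} [Fintype X] [DecidableEq X]
    (hX : 5 ≤ Fintype.card X) (P : Perm X →* G) (hP : Function.Injective P) (p k : ℕ)
    (D : Design3 p X) (g C : G) (hg : Commute g (P (D.π * D.α)))
    (hC : C = g * P D.π * g⁻¹ * P D.π) (hCp : C ^ (p ^ k) = 1) (hgD : g ∈ commutator G)
    (hgen : ∀ H : Subgroup G, (∀ τ ∈ alternatingGroup X, P τ ∈ H) → C ∈ H → commutator G ≤ H) :
    IsLeast {k : ℕ | Admissible (↥(commutator G) ⧸ Subgroup.center ↥(commutator G)) k} 5 := by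
  have hX' : 5 ≤ Nat.card X := by rwa [Nat.card_eq_fintype_card]
  have hAlt : ∀ τ ∈ alternatingGroup X, P τ ∈ commutator G := by
    intro τ hτ
    rw [← commutator_alternatingGroup_eq_self (α := X) hX'] at hτ
    have h1 : P τ ∈ (⁅alternatingGroup X, alternatingGroup X⁆).map P := ⟨τ, hτ, rfl⟩
    rw [Subgroup.map_commutator] at h1
    exact Subgroup.commutator_mono le_top le_top h1
  have hα : D.α ∈ alternatingGroup X := by
    rw [← D.gen]; exact Subgroup.subset_closure (by simp)
  have hβ : D.β ∈ alternatingGroup X := by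
    rw [← D.gen]; exact Subgroup.subset_closure (by simp)
  have hπ : D.π ∈ alternatingGroup X := by
    rw [← D.gen]; exact Subgroup.subset_closure (by simp)
  have hPπ : P D.π * P D.π = 1 := by rw [← map_mul, D.π2, map_one]
  have hPα : P D.α * P D.α = 1 := by rw [← map_mul, D.α2, map_one]
  have hPβ : P D.β * P D.β = 1 := by rw [← map_mul, D.β2, map_one]
  set Z := Subgroup.center ↥(commutator G) with hZ
  -- the lift of the alternating group
  let φ : ↥(alternatingGroup X) →* ↥(commutator G) :=
    (P.comp (alternatingGroup X).subtype).codRestrict (commutator G) (fun τ => hAlt τ.1 τ.2)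
  have hφ : Function.Injective φ := by
    intro a b hab
    exact Subtype.ext (hP (congrArg Subtype.val hab))
  have hnt : Nontrivial ↥(alternatingGroup X) :=
    alternatingGroup.nontrivial_of_three_le_card (by rw [Nat.card_eq_fintype_card]; omega)
  have hperf := commutator_alternatingGroup_eq_top (α := X) hX'
  have hnoncomm : ¬ ∀ a b : ↥(alternatingGroup X), a * b = b * a := by
    intro h
    have h1 : commutator ↥(alternatingGroup X) = ⊥ := by
      rw [eq_bot_iff, commutator_def, Subgroup.commutator_le]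
      intro a _ b _
      rw [Subgroup.mem_bot, commutatorElement_eq_one_iff_mul_comm]
      exact h a b
    rw [hperf] at h1
    exact top_ne_bot h1
  have hnotcen : ¬ ∀ a : ↥(alternatingGroup X), φ a ∈ Z := by
    intro h
    apply hnoncomm
    intro a b
    apply hφ
    rw [map_mul, map_mul]
    exact ((Subgroup.mem_center_iff.1 (h a)) (φ b)).symm
  set γ := g * P D.π * g⁻¹ with hγ
  have hγD : γ ∈ commutator G :=
    Subgroup.mul_mem _ (Subgroup.mul_mem _ hgD (hAlt _ hπ)) (Subgroup.inv_mem _ hgD)
  have hγγ : γ * γ = 1 := by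
    rw [hγ, show g * P D.π * g⁻¹ * (g * P D.π * g⁻¹) = g * (P D.π * P D.π) * g⁻¹ by group, hPπ]
    group
  have hCD : C ∈ commutator G := by
    rw [hC]; exact Subgroup.mul_mem _ hγD (hAlt _ hπ)
  have hgenH := engine P D.α D.β D.π D.α2 D.π2 D.gen D.N p k D.hN D.hcop g C hg hC hCp
  have hH : Subgroup.closure (P '' (alternatingGroup X : Set (Perm X)) ∪ {C}) = commutator G := by
    apply le_antisymm
    · rw [Subgroup.closure_le]
      rintro x (⟨τ, hτ, rfl⟩ | hx)
      · exact hAlt τ hτ
      · rw [Set.mem_singleton_iff] at hx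
        rw [hx]; exact hCD
    · apply hgen
      · intro τ hτ
        exact Subgroup.subset_closure (Or.inl ⟨τ, hτ, rfl⟩)
      · exact Subgroup.subset_closure (Or.inr rfl)
  rw [hH] at hgenH
  constructor
  · -- upper bound
    set a : ↥(commutator G) := ⟨P D.α, hAlt _ hα⟩ with ha
    set b : ↥(commutator G) := ⟨P D.β, hAlt _ hβ⟩ with hb
    set c : ↥(commutator G) := ⟨γ, hγD⟩ with hc
    have haa : a * a = 1 := Subtype.ext hPα
    have hbb : b * b = 1 := Subtype.ext hPβ
    have hcc : c * c = 1 := Subtype.ext hγγ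
    have hab : a * b = b * a := Subtype.ext (by
      show P D.α * P D.β = P D.β * P D.α
      rw [← map_mul, D.comm, map_mul])
    have habab : (a * b) * (a * b) = 1 := by
      rw [show (a * b) * (a * b) = a * (b * a) * b by group, ← hab,
        show a * (a * b) * b = (a * a) * (b * b) by group, haa, hbb, one_mul]
    have cab : IsConj a b := by
      obtain ⟨d, hd, hd'⟩ := D.cβ
      refine isConj_iff.2 ⟨⟨P d, hAlt _ hd⟩, Subtype.ext ?_⟩
      show P d * P D.α * (P d)⁻¹ = P D.β
      rw [← map_mul, ← map_inv, ← map_mul, hd']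
    have cab' : IsConj a (a * b) := by
      obtain ⟨d, hd, hd'⟩ := D.cαβ
      refine isConj_iff.2 ⟨⟨P d, hAlt _ hd⟩, Subtype.ext ?_⟩
      show P d * P D.α * (P d)⁻¹ = P D.α * P D.β
      rw [← map_mul, ← map_inv, ← map_mul, hd', map_mul]
    have cac : IsConj a c := by
      obtain ⟨d, hd, hd'⟩ := D.cπ
      refine isConj_iff.2 ⟨⟨g * P d, Subgroup.mul_mem _ hgD (hAlt _ hd)⟩, Subtype.ext ?_⟩
      show (g * P d) * P D.α * (g * P d)⁻¹ = g * P D.π * g⁻¹
      rw [← hd', map_mul, map_mul, map_inv]
      group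
    have key : ∀ i : Fin 5, IsConj a ((![a, b, a * b, c, c] : Fin 5 → ↥(commutator G)) i) := by
      intro i
      fin_cases i
      · exact IsConj.refl a
      · exact cab
      · exact cab'
      · exact cac
      · exact cac
    refine admissible_center (![a, b, a * b, c, c] : Fin 5 → ↥(commutator G)) ?_ ?_ ?_ ?_ ?_
    · intro i
      fin_cases i
      · exact haa
      · exact hbb
      · exact habab
      · exact hcc
      · exact hcc
    · intro i j
      exact (key i).symm.trans (key j)
    · have h1 : Subgroup.closure ({a, b, c} : Set ↥(commutator G)) = ⊤ := by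
        apply Subgroup.map_injective (commutator G).subtype_injective
        rw [MonoidHom.map_closure, ← MonoidHom.range_eq_map, Subgroup.range_subtype]
        refine Eq.trans ?_ hgenH
        congr 1
        ext x
        simp only [Set.mem_image, Set.mem_insert_iff, Set.mem_singleton_iff]
        constructor
        · rintro ⟨y, (rfl | rfl | rfl), rfl⟩
          · exact Or.inl rfl
          · exact Or.inr (Or.inl rfl)
          · exact Or.inr (Or.inr rfl)
        · rintro (rfl | rfl | rfl)
          · exact ⟨a, Or.inl rfl, rfl⟩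
          · exact ⟨b, Or.inr (Or.inl rfl), rfl⟩
          · exact ⟨c, Or.inr (Or.inr rfl), rfl⟩
      rw [eq_top_iff, ← h1]
      apply Subgroup.closure_mono
      rintro x (rfl | rfl | rfl)
      · exact ⟨0, rfl⟩
      · exact ⟨1, rfl⟩
      · exact ⟨3, rfl⟩
    · have : (List.ofFn (![a, b, a * b, c, c] : Fin 5 → ↥(commutator G))).prod =
          (a * b) * (a * b) * (c * c) := by
        simp [List.ofFn_succ, mul_assoc]
      rw [this, habab, hcc, one_mul]
    · by_contra hcon
      push Not at hcon
      exact hnotcen (fun τ => hcon _)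
  · -- lower bound
    intro n hn
    refine lower5_gen ?_ hn
    by_contra hcon
    push Not at hcon
    apply hnotcen
    let ψ : ↥(alternatingGroup X) →* ↥(commutator G) ⧸ Z := (QuotientGroup.mk' Z).comp φ
    have h1 : ∀ τ, ψ τ ∈ commutator (↥(commutator G) ⧸ Z) := by
      intro τ
      have h2 : ψ τ ∈ Subgroup.map ψ ⁅(⊤ : Subgroup ↥(alternatingGroup X)), ⊤⁆ :=
        ⟨τ, by rw [← commutator_def, hperf]; exact Subgroup.mem_top _, rfl⟩
      rw [Subgroup.map_commutator] at h2
      exact Subgroup.commutator_mono le_top le_top h2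
    have h2 : commutator ↥(alternatingGroup X) ≤ ψ.ker := by
      rw [commutator_def, Subgroup.commutator_le]
      intro a _ b _
      rw [MonoidHom.mem_ker, map_commutatorElement, commutatorElement_eq_one_iff_mul_comm]
      exact hcon _ (h1 a) _ (h1 b)
    intro τ
    have h3 : τ ∈ ψ.ker := h2 (by rw [hperf]; exact Subgroup.mem_top _)
    exact (QuotientGroup.eq_one_iff (φ τ)).1 h3

/-- the linear case -/
theorem linear_matrix3 {K : Type*} [Field K] [Finite K] {X : Type} [Fintype X] [DecidableEq X]
    (hX : 20 ≤ Fintype.card X) (p : ℕ) [Fact p.Prime] [CharP K p] (D : Design3 p X) :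
    IsLeast {k : ℕ | Admissible (↥(commutator (GL X K)) ⧸
      Subgroup.center ↥(commutator (GL X K))) k} 5 := by
  obtain ⟨u, hu⟩ := IsCyclic.exists_generator (α := Kˣ)
  have hl : ∀ x : K, x ≠ 0 → ∃ n : ℕ, x = (u : K) ^ n := by
    intro x hx
    have h1 := hu (Units.mk0 x hx)
    rw [← mem_powers_iff_mem_zpowers] at h1
    obtain ⟨n, hn⟩ := h1
    refine ⟨n, ?_⟩
    have h2 := congrArg Units.val hn
    simpa using h2.symm
  set l : K := (u : K) with hldef
  have hl0 : l ≠ 0 := u.ne_zero
  have hi : Function.Injective D.i := fun a b hab => by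
    have := D.inj (a₁ := Sum.inl a) (a₂ := Sum.inl b) hab
    exact Sum.inl_injective this
  have hi' : Function.Injective D.i' := fun a b hab => by
    have := D.inj (a₁ := Sum.inr a) (a₂ := Sum.inr b) hab
    exact Sum.inr_injective this
  have hii : ∀ a b, D.i a ≠ D.i' b := fun a b hab => by
    have := D.inj (a₁ := Sum.inl a) (a₂ := Sum.inr b) hab
    exact Sum.inl_ne_inr this
  have n01 : D.i 0 ≠ D.i 1 := hi.ne (by decide)
  have n02 : D.i 0 ≠ D.i 2 := hi.ne (by decide)
  have n12 : D.i 1 ≠ D.i 2 := hi.ne (by decide)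
  have m01 : D.i' 0 ≠ D.i' 1 := hi'.ne (by decide)
  have hy : Function.Injective ![D.i 0, D.i 1, D.i' 0, D.i' 1] := by
    have k1 := hii 0 0
    have k2 := hii 0 1
    have k3 := hii 1 0
    have k4 := hii 1 1
    intro a b hab
    fin_cases a <;> fin_cases b <;> simp_all [eq_comm]
  have hπi' : ∀ k, D.π (D.i' k) = D.i k := by
    intro k
    rw [← D.hπ k]
    have := congrArg (fun f => f (D.i k)) D.π2
    simpa using this
  have hPπ : (linP (K := K) D.π)⁻¹ = linP (K := K) D.π := by
    rw [inv_eq_iff_mul_eq_one, ← map_mul, D.π2, map_one]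
  have hD1 : linD l ![D.i 0, D.i 1, D.i' 0, D.i' 1] hy = linT n01 l * (linT m01 l)⁻¹ := rfl
  have hconj : linP (K := K) D.π * linT n01 l * (linP (K := K) D.π)⁻¹ = linT m01 l := by
    have h' : D.π (D.i 0) ≠ D.π (D.i 1) := D.π.injective.ne n01
    rw [linP_conj D.π n01 h']
    simp only [D.hπ]
  refine final3 (by omega) (linP (K := K)) linP_injective p 1 D (linT n01 l)
    (linD l ![D.i 0, D.i 1, D.i' 0, D.i' 1] hy) ?_ ?_ ?_ ?_ ?_
  · have h' : (D.π * D.α) (D.i 0) ≠ (D.π * D.α) (D.i 1) := (D.π * D.α).injective.ne n01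
    have h1 := linP_conj (K := K) (D.π * D.α) n01 h' l
    simp only [Equiv.Perm.mul_apply, D.hα, hπi'] at h1
    rw [mul_inv_eq_iff_eq_mul] at h1
    exact h1.symm
  · rw [hD1, ← hconj]
    simp only [_root_.mul_inv_rev, hPπ, mul_assoc]
  · have hc : Commute (linT n01 l : GL X K) (linT m01 l)⁻¹ :=
      (linT_comm n01 m01 (hii 1 0) (hii 0 1).symm l l).inv_right
    rw [hD1, pow_one, hc.mul_pow, inv_pow, linT_pow, linT_pow, CharP.cast_eq_zero, zero_mul,
      linT_zero, linT_zero, inv_one, mul_one]
  · have h1 := linT_commutator (K := K) n02 n12.symm n01 1 l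
    rw [one_mul] at h1
    rw [← h1]
    exact Subgroup.commutator_mem_commutator (Subgroup.mem_top _) (Subgroup.mem_top _)
  · intro H hH hCH
    exact lin_gen hX H l hl0 hl (fun z hz => linD_mem hX H hH l _ hy hCH z hz)


section frm

variable {K V : Type*} [Field K] [Finite K] [AddCommGroup V] [Module K V]

theorem C_all3 {F : Frm K V} {X : Type*} [Fintype X] [DecidableEq X] {B : Frame F X}
    (D : Seed3 B) (hX : 8 ≤ Fintype.card X) (H : Subgroup F.G)
    (hP : ∀ τ ∈ alternatingGroup X, B.P τ ∈ H) (i i' : Fin 3 → X)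
    (hi : Function.Injective (Sum.elim i i')) (hC : D.C i i' ∈ H) (j j' : Fin 3 → X)
    (hj : Function.Injective (Sum.elim j j')) : D.C j j' ∈ H := by
  obtain ⟨τ, hτ, h⟩ := exists_alt_map (X := X) (n := 6) (by omega)
    (fun k => Sum.elim i i' (finSumFinEquiv.symm k : Fin 3 ⊕ Fin 3))
    (fun k => Sum.elim j j' (finSumFinEquiv.symm k : Fin 3 ⊕ Fin 3))
    (hi.comp (Equiv.injective _)) (hj.comp (Equiv.injective _))
  have h1 : (fun k => τ (i k)) = j := by
    ext k
    have := h (finSumFinEquiv (m := 3) (n := 3) (Sum.inl k))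
    simpa only [Equiv.symm_apply_apply, Sum.elim_inl] using this
  have h2 : (fun k => τ (i' k)) = j' := by
    ext k
    have := h (finSumFinEquiv (m := 3) (n := 3) (Sum.inr k))
    simpa only [Equiv.symm_apply_apply, Sum.elim_inr] using this
  have h3 := D.C_conj τ i i'
  rw [h1, h2] at h3
  rw [← h3]
  exact H.mul_mem (H.mul_mem (hP τ hτ) hC) (H.inv_mem (hP τ hτ))

theorem siegel_le3 {F : Frm K V} {X : Type*} [Fintype X] [DecidableEq X] {B : Frame F X}
    (D : Seed3 B) (hX : 9 ≤ Fintype.card X) (H : Subgroup F.G)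
    (hP : ∀ τ ∈ alternatingGroup X, B.P τ ∈ H) (i i' : Fin 3 → X)
    (hi : Function.Injective (Sum.elim i i')) (hC : D.C i i' ∈ H) : siegel F ≤ H := by
  have hR := roots_of hX (rat_of (D := D) hX (C_all3 D (by omega) H hP i i' hi hC))
  rw [siegel, Subgroup.closure_le]
  rintro _ ⟨u, w, s, rfl⟩
  exact El_mem (by omega) H hR u w s

/-- the case of a form, for a given design -/
theorem frm_case3 (F : Frm K V) {X : Type} [Fintype X] [DecidableEq X] (B : Frame F X)
    (hX : 9 ≤ Fintype.card X) (p : ℕ) [Fact p.Prime] [CharP K p] (D : Design3 p X) :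
    IsLeast {k : ℕ | Admissible (↥(commutator F.G) ⧸ Subgroup.center ↥(commutator F.G)) k} 5 := by
  obtain ⟨l, hl, hgen⟩ := exists_gen K
  obtain ⟨S, -⟩ := exists_seed3 B l hl hgen
  have hπ : B.P D.π * B.P D.π = 1 := by rw [← map_mul, D.π2, map_one]
  have hπi : (B.P D.π)⁻¹ = B.P D.π := inv_eq_of_mul_eq_one_left hπ
  have hC : S.C D.i D.i' = S.g D.i * B.P D.π * (S.g D.i)⁻¹ * B.P D.π := by
    have h1 := S.g_conj D.π D.i
    have h2 : (fun k => D.π (D.i k)) = D.i' := funext D.hπ
    rw [h2] at h1
    rw [Seed3.C, ← h1]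
    simp only [_root_.mul_inv_rev, hπi]
    group
  have hAlt : ∀ τ ∈ alternatingGroup X, B.P τ ∈ commutator F.G := by
    intro τ hτ
    rw [← commutator_alternatingGroup_eq_self (α := X) (by rw [Nat.card_eq_fintype_card]; omega)]
      at hτ
    have h1 : B.P τ ∈ (⁅alternatingGroup X, alternatingGroup X⁆).map B.P := ⟨τ, hτ, rfl⟩
    rw [Subgroup.map_commutator] at h1
    exact Subgroup.commutator_mono le_top le_top h1
  have hCD : S.C D.i D.i' ∈ commutator F.G := by
    rw [hC]
    have : S.g D.i * B.P D.π * (S.g D.i)⁻¹ * B.P D.π = ⁅S.g D.i, B.P D.π⁆ := by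
      rw [commutatorElement_def, hπi]
    rw [this]
    exact Subgroup.commutator_mem_commutator (Subgroup.mem_top _) (Subgroup.mem_top _)
  have hSD := siegel_le3 S hX (commutator F.G) hAlt D.i D.i' D.inj hCD
  refine final3 (by omega) B.P B.P_inj p 3 D (S.g D.i) (S.C D.i D.i') ?_ hC
    (S.C_pow p D.i D.i' D.inj) ?_ ?_
  · apply S.g_comm
    intro k
    rw [Equiv.Perm.mul_apply, D.hα, ← D.hπ, ← Equiv.Perm.mul_apply, D.π2, Equiv.Perm.one_apply]
  · apply hSD
    have : ∀ u w s, F.El u w s ∈ siegel F := fun u w s =>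
      Subgroup.subset_closure ⟨u, w, s, rfl⟩
    unfold Seed3.g Seed3.E Seed3.L
    exact Subgroup.mul_mem _ (this _ _ _) (this _ _ _)
  · intro H hP hCH
    exact (commutator_le_siegel B (by omega)).trans
      (siegel_le3 S hX H hP D.i D.i' D.inj hCH)

end frm

end H41Cl
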