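import Pool.Agent.H.MP_0335f8_al.helper41c.Fin3
import Pool.Agent.H.MP_0335f8_al.helper41c.Dat1
import Pool.Agent.H.MP_0335f8_al.helper41c.Dat2
import Pool.Agent.H.MP_0335f8_al.helper41c.Dat3
import Pool.Agent.H.MP_0335f8_al.helper41c.Dat4
import Pool.Agent.H.MP_0335f8_al.helper41c.Dat5

/-!
# The classical groups of dimension at least 44
-/

namespace H41Cl

open Equiv H47Inv H47Cl H47Cl.Frm

theorem exists_design3 (p : ℕ) (hp : p.Prime) (m : ℕ) (hm : 21 ≤ m) :
    ∃ (X : Type) (_ : Fintype X) (_ : DecidableEq X), Fintype.card X = m ∧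
      Nonempty (Design3 p X) := by
  by_cases h : 86 ≤ m
  · obtain ⟨X, i1, i2, hX, ⟨D⟩⟩ := exists_design p hp m h
    exact ⟨X, i1, i2, hX, ⟨ofDesign D⟩⟩
  have h' : m ≤ 85 := by omega
  interval_cases m
  · exact ⟨Fin 21, inferInstance, inferInstance, Fintype.card_fin _, d21 p hp⟩
  · exact ⟨Fin 22, inferInstance, inferInstance, Fintype.card_fin _, d22 p hp⟩
  · exact ⟨Fin 23, inferInstance, inferInstance, Fintype.card_fin _, d23 p hp⟩
  · exact ⟨Fin 24, inferInstance, inferInstance, Fintype.card_fin _, d24 p hp⟩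
  · exact ⟨Fin 25, inferInstance, inferInstance, Fintype.card_fin _, d25 p hp⟩
  · exact ⟨Fin 26, inferInstance, inferInstance, Fintype.card_fin _, d26 p hp⟩
  · exact ⟨Fin 27, inferInstance, inferInstance, Fintype.card_fin _, d27 p hp⟩
  · exact ⟨Fin 28, inferInstance, inferInstance, Fintype.card_fin _, d28 p hp⟩
  · exact ⟨Fin 29, inferInstance, inferInstance, Fintype.card_fin _, d29 p hp⟩
  · exact ⟨Fin 30, inferInstance, inferInstance, Fintype.card_fin _, d30 p hp⟩
  · exact ⟨Fin 31, inferInstance, inferInstance, Fintype.card_fin _, d31 p hp⟩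
  · exact ⟨Fin 32, inferInstance, inferInstance, Fintype.card_fin _, d32 p hp⟩
  · exact ⟨Fin 33, inferInstance, inferInstance, Fintype.card_fin _, d33 p hp⟩
  · exact ⟨Fin 34, inferInstance, inferInstance, Fintype.card_fin _, d34 p hp⟩
  · exact ⟨Fin 35, inferInstance, inferInstance, Fintype.card_fin _, d35 p hp⟩
  · exact ⟨Fin 36, inferInstance, inferInstance, Fintype.card_fin _, d36 p hp⟩
  · exact ⟨Fin 37, inferInstance, inferInstance, Fintype.card_fin _, d37 p hp⟩
  · exact ⟨Fin 38, inferInstance, inferInstance, Fintype.card_fin _, d38 p hp⟩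
  · exact ⟨Fin 39, inferInstance, inferInstance, Fintype.card_fin _, d39 p hp⟩
  · exact ⟨Fin 40, inferInstance, inferInstance, Fintype.card_fin _, d40 p hp⟩
  · exact ⟨Fin 41, inferInstance, inferInstance, Fintype.card_fin _, d41 p hp⟩
  · exact ⟨Fin 42, inferInstance, inferInstance, Fintype.card_fin _, d42 p hp⟩
  · exact ⟨Fin 43, inferInstance, inferInstance, Fintype.card_fin _, d43 p hp⟩
  · exact ⟨Fin 44, inferInstance, inferInstance, Fintype.card_fin _, d44 p hp⟩
  · exact ⟨Fin 45, inferInstance, inferInstance, Fintype.card_fin _, d45 p hp⟩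
  · exact ⟨Fin 46, inferInstance, inferInstance, Fintype.card_fin _, d46 p hp⟩
  · exact ⟨Fin 47, inferInstance, inferInstance, Fintype.card_fin _, d47 p hp⟩
  · exact ⟨Fin 48, inferInstance, inferInstance, Fintype.card_fin _, d48 p hp⟩
  · exact ⟨Fin 49, inferInstance, inferInstance, Fintype.card_fin _, d49 p hp⟩
  · exact ⟨Fin 50, inferInstance, inferInstance, Fintype.card_fin _, d50 p hp⟩
  · exact ⟨Fin 51, inferInstance, inferInstance, Fintype.card_fin _, d51 p hp⟩
  · exact ⟨Fin 52, inferInstance, inferInstance, Fintype.card_fin _, d52 p hp⟩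
  · exact ⟨Fin 53, inferInstance, inferInstance, Fintype.card_fin _, d53 p hp⟩
  · exact ⟨Fin 54, inferInstance, inferInstance, Fintype.card_fin _, d54 p hp⟩
  · exact ⟨Fin 55, inferInstance, inferInstance, Fintype.card_fin _, d55 p hp⟩
  · exact ⟨Fin 56, inferInstance, inferInstance, Fintype.card_fin _, d56 p hp⟩
  · exact ⟨Fin 57, inferInstance, inferInstance, Fintype.card_fin _, d57 p hp⟩
  · exact ⟨Fin 58, inferInstance, inferInstance, Fintype.card_fin _, d58 p hp⟩
  · exact ⟨Fin 59, inferInstance, inferInstance, Fintype.card_fin _, d59 p hp⟩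
  · exact ⟨Fin 60, inferInstance, inferInstance, Fintype.card_fin _, d60 p hp⟩
  · exact ⟨Fin 61, inferInstance, inferInstance, Fintype.card_fin _, d61 p hp⟩
  · exact ⟨Fin 62, inferInstance, inferInstance, Fintype.card_fin _, d62 p hp⟩
  · exact ⟨Fin 63, inferInstance, inferInstance, Fintype.card_fin _, d63 p hp⟩
  · exact ⟨Fin 64, inferInstance, inferInstance, Fintype.card_fin _, d64 p hp⟩
  · exact ⟨Fin 65, inferInstance, inferInstance, Fintype.card_fin _, d65 p hp⟩
  · exact ⟨Fin 66, inferInstance, inferInstance, Fintype.card_fin _, d66 p hp⟩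
  · exact ⟨Fin 67, inferInstance, inferInstance, Fintype.card_fin _, d67 p hp⟩
  · exact ⟨Fin 68, inferInstance, inferInstance, Fintype.card_fin _, d68 p hp⟩
  · exact ⟨Fin 69, inferInstance, inferInstance, Fintype.card_fin _, d69 p hp⟩
  · exact ⟨Fin 70, inferInstance, inferInstance, Fintype.card_fin _, d70 p hp⟩
  · exact ⟨Fin 71, inferInstance, inferInstance, Fintype.card_fin _, d71 p hp⟩
  · exact ⟨Fin 72, inferInstance, inferInstance, Fintype.card_fin _, d72 p hp⟩
  · exact ⟨Fin 73, inferInstance, inferInstance, Fintype.card_fin _, d73 p hp⟩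
  · exact ⟨Fin 74, inferInstance, inferInstance, Fintype.card_fin _, d74 p hp⟩
  · exact ⟨Fin 75, inferInstance, inferInstance, Fintype.card_fin _, d75 p hp⟩
  · exact ⟨Fin 76, inferInstance, inferInstance, Fintype.card_fin _, d76 p hp⟩
  · exact ⟨Fin 77, inferInstance, inferInstance, Fintype.card_fin _, d77 p hp⟩
  · exact ⟨Fin 78, inferInstance, inferInstance, Fintype.card_fin _, d78 p hp⟩
  · exact ⟨Fin 79, inferInstance, inferInstance, Fintype.card_fin _, d79 p hp⟩
  · exact ⟨Fin 80, inferInstance, inferInstance, Fintype.card_fin _, d80 p hp⟩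
  · exact ⟨Fin 81, inferInstance, inferInstance, Fintype.card_fin _, d81 p hp⟩
  · exact ⟨Fin 82, inferInstance, inferInstance, Fintype.card_fin _, d82 p hp⟩
  · exact ⟨Fin 83, inferInstance, inferInstance, Fintype.card_fin _, d83 p hp⟩
  · exact ⟨Fin 84, inferInstance, inferInstance, Fintype.card_fin _, d84 p hp⟩
  · exact ⟨Fin 85, inferInstance, inferInstance, Fintype.card_fin _, d85 p hp⟩

variable {K V : Type*} [Field K] [Finite K] [AddCommGroup V] [Module K V]

theorem char_prime (K : Type*) [Field K] [Finite K] : ∃ p : ℕ, p.Prime ∧ CharP K p := by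
  obtain ⟨p, hp⟩ := CharP.exists K
  refine ⟨p, (CharP.char_is_prime_or_zero K p).resolve_right ?_, hp⟩
  intro h0
  subst h0
  have := CharP.charP_to_charZero K
  exact not_finite K

theorem frm_main [FiniteDimensional K V] (F : Frm K V) (hd : 44 ≤ Module.finrank K V) :
    IsLeast {k : ℕ | Admissible (↥(commutator F.G) ⧸ Subgroup.center ↥(commutator F.G)) k} 5 := by
  obtain ⟨m, hm, ⟨B0⟩⟩ := exists_frame F
  obtain ⟨p, hpp, hp⟩ := char_prime K
  have : Fact p.Prime := ⟨hpp⟩
  obtain ⟨X, _, _, hX, ⟨D⟩⟩ := exists_design3 p hpp m (by omega)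
  have g0 : X ≃ Fin m := Fintype.equivFinOfCardEq hX
  exact frm_case3 F (B0.reindex g0) (by omega) p D

theorem lin_main [FiniteDimensional K V] (hd : 44 ≤ Module.finrank K V) :
    IsLeast {k : ℕ | Admissible (ClassicalSpace.linear : ClassicalSpace K V).SimpleGroup k} 5 := by
  obtain ⟨p, hpp, hp⟩ := char_prime K
  have : Fact p.Prime := ⟨hpp⟩
  obtain ⟨X, _, _, hX, ⟨D⟩⟩ := exists_design3 p hpp (Module.finrank K V) (by omega)
  have g0 : X ≃ Fin (Module.finrank K V) := Fintype.equivFinOfCardEq hX
  have hl := linear_matrix3 (K := K) (X := X) (by omega) p D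
  have b : Module.Basis X K V := (Module.finBasis K V).reindex g0.symm
  have f1 : GL X K ≃* (V ≃ₗ[K] V) :=
    ((Matrix.GeneralLinearGroup.toLin).trans (LinearMap.GeneralLinearGroup.congrLinearEquiv
      b.equivFun.symm)).trans (LinearMap.GeneralLinearGroup.generalLinearEquiv K V)
  have hT : (ClassicalSpace.linear : ClassicalSpace K V).isometryGroup = ⊤ := by
    rw [eq_top_iff]
    intro g _
    exact trivial
  have f2 : (V ≃ₗ[K] V) ≃* ↥(ClassicalSpace.linear : ClassicalSpace K V).isometryGroup := by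
    rw [hT]
    exact Subgroup.topEquiv.symm
  obtain ⟨f⟩ := dz_equiv (f1.trans f2)
  exact isLeast_transfer f 5 hl

/-- the main theorem -/
theorem main44 [FiniteDimensional K V] (S : ClassicalSpace K V) (hd : 44 ≤ Module.finrank K V) :
    IsLeast {k : ℕ | Admissible S.SimpleGroup k} 5 := by
  cases S with
  | linear => exact lin_main hd
  | symplectic B alt nondeg =>
    obtain ⟨F, hF⟩ := exists_frm_symplectic B alt nondeg
    have := frm_main F hd
    unfold Frm.G at this
    rw [hF] at this
    exact this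
  | unitary σ inv ne B herm nondeg =>
    obtain ⟨F, hF⟩ := exists_frm_unitary σ inv ne B herm nondeg
    have := frm_main F hd
    unfold Frm.G at this
    rw [hF] at this
    exact this
  | orthogonal Q nondeg =>
    obtain ⟨F, hF⟩ := exists_frm_orthogonal Q nondeg
    have := frm_main F hd
    unfold Frm.G at this
    rw [hF] at this
    exact this

end H41Cl
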